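import Pool.Agent.X159.WM.Sift
import Pool.Agent.Results.MP_323ce2_nt.ZeroSumCriterion

/-!
The weak Mertens hypothesis and Dirichlet convolution.
-/

set_option autoImplicit false

open Finset ArithmeticFunction Filter

namespace Pool.Agent.X159.WM

/-- `∫_1^x (S(u)/u)² du ≤ C log x` for all `x ≥ 2` -/
def LogBound (a : ArithmeticFunction ℝ) : Prop :=
  ∃ C : ℝ, ∀ x : ℝ, 2 ≤ x → msq a x ≤ C * Real.log x

/-- the same for arbitrarily large `x` only -/
def LogBoundOften (a : ArithmeticFunction ℝ) : Prop :=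
  ∃ C : ℝ, ∃ᶠ x : ℝ in atTop, msq a x ≤ C * Real.log x

theorem logBound_mul {a g : ArithmeticFunction ℝ} (hg : Wiener g) (h : LogBound a) :
    LogBound (g * a) := by
  obtain ⟨C, hC⟩ := h
  refine ⟨wnorm g ^ 2 * C, fun x hx => ?_⟩
  refine (msq_mul_le g a hg (by linarith)).trans ?_
  rw [mul_assoc]
  exact mul_le_mul_of_nonneg_left (hC x hx) (sq_nonneg _)

theorem logBoundOften_mul {a g : ArithmeticFunction ℝ} (hg : Wiener g) (h : LogBoundOften a) :
    LogBoundOften (g * a) := by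
  obtain ⟨C, hC⟩ := h
  refine ⟨wnorm g ^ 2 * C, ?_⟩
  refine (hC.and_eventually (eventually_ge_atTop 1)).mono fun x hx => ?_
  refine (msq_mul_le g a hg hx.2).trans ?_
  rw [mul_assoc]
  exact mul_le_mul_of_nonneg_left hx.1 (sq_nonneg _)

theorem msq_eq (x : ℝ) :
    Pool.Agent.Results.MP_323ce2_nt.ZeroSumCriterion.msq 1 x = msq mu x := rfl

/-- a bound for arbitrarily large `x` is enough -/
theorem often_mu : LogBoundOften mu → LogBound mu := by
  rintro ⟨C, hC⟩
  obtain ⟨h1, h2⟩ := Pool.Agent.Results.MP_323ce2_nt.ZeroSumCriterion.result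
  by_contra hno
  have h3 := (h2 1 zero_lt_one le_rfl).2 (fun hz => hno (h1.2 hz))
  have h4 := h3.eventually (eventually_gt_atTop C)
  obtain ⟨x, hx, hx2, hx3⟩ := (hC.and_eventually (h4.and (eventually_gt_atTop 1))).exists
  have hlog : 0 < Real.log x := Real.log_pos hx3
  rw [lt_div_iff₀ hlog] at hx2
  have h5 : x ^ (1 - (1 : ℝ)) = 1 := by simp
  rw [h5, msq_eq] at hx2
  linarith

theorem logBound_often {a : ArithmeticFunction ℝ} (h : LogBound a) : LogBoundOften a := by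
  obtain ⟨C, hC⟩ := h
  exact ⟨C, ((eventually_ge_atTop 2).mono fun x hx => hC x hx).frequently⟩

theorem general (g g' : ArithmeticFunction ℝ) (h : g * g' = 1) (hg : Wiener g) (hg' : Wiener g') :
    (∀ x : ℝ, 1 ≤ x → msq (g * mu) x ≤ wnorm g ^ 2 * msq mu x ∧
      msq mu x ≤ wnorm g' ^ 2 * msq (g * mu) x) ∧
    (LogBound mu ↔ LogBound (g * mu)) ∧ (LogBound mu ↔ LogBoundOften (g * mu)) := by
  have hinv : g' * (g * mu) = mu := by
    rw [← mul_assoc, mul_comm g' g, h, one_mul]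
  refine ⟨fun x hx => ⟨msq_mul_le g mu hg hx, ?_⟩, ⟨logBound_mul hg, fun h1 => ?_⟩,
    ⟨fun h1 => logBound_often (logBound_mul hg h1), fun h1 => ?_⟩⟩
  · have := msq_mul_le g' (g * mu) hg' hx
    rwa [hinv] at this
  · have := logBound_mul hg' h1
    rwa [hinv] at this
  · have := logBoundOften_mul hg' h1
    rw [hinv] at this
    exact often_mu this

theorem wm_main :
    (∀ g g' : ArithmeticFunction ℝ, g * g' = 1 → Wiener g → Wiener g' →
      (∀ x : ℝ, 1 ≤ x → msq (g * mu) x ≤ wnorm g ^ 2 * msq mu x ∧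
        msq mu x ≤ wnorm g' ^ 2 * msq (g * mu) x) ∧
      (LogBound mu ↔ LogBound (g * mu)) ∧ (LogBound mu ↔ LogBoundOften (g * mu))) ∧
    (∀ P : Set ℕ, (∀ p ∈ P, p.Prime) →
      (Summable fun p : P => ((p : ℕ) : ℝ) ^ (-(1 / 2 : ℝ))) →
      (LogBound mu ↔ LogBound (muP P)) ∧ (LogBound mu ↔ LogBoundOften (muP P))) := by
  refine ⟨general, fun P hP hs => ?_⟩
  have h1 := wiener_ind P hP hs
  have h2 := general (ind P) ((ind P).pmul mu) (ind_mul_pmul P) h1 (wiener_pmul P h1)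
  rw [ind_mul_mu P hP] at h2
  exact h2.2

end Pool.Agent.X159.WM
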