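import Pool.Agent.X159.WM.Sift

/-!
Extreme values of summatory functions and Dirichlet convolution.
-/

set_option autoImplicit false

open Finset ArithmeticFunction Filter

namespace Pool.Agent.X159.WM

/-- `x^(1/2) (log log log x)^(5/4)` -/
noncomputable def F (x : ℝ) : ℝ := Real.sqrt x * Real.log (Real.log (Real.log x)) ^ ((5 : ℝ) / 4)

/-- `limsup |S(x)| / F(x)`, an element of `[0, ∞]` -/
noncomputable def osc (a : ArithmeticFunction ℝ) : ENNReal :=
  limsup (fun x : ℝ => ENNReal.ofReal (|S a x| / F x)) atTop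

/-- the statement of Q1 for the summatory function of `a` -/
def Gonek (a : ArithmeticFunction ℝ) : Prop :=
  ∃ B : ℝ, 0 < B ∧
    liminf (fun x : ℝ => ((S a x / F x : ℝ) : EReal)) atTop = (((-B : ℝ)) : EReal) ∧
    limsup (fun x : ℝ => ((S a x / F x : ℝ) : EReal)) atTop = ((B : ℝ) : EReal)

theorem tendsto_lll : Tendsto (fun x : ℝ => Real.log (Real.log (Real.log x))) atTop atTop :=
  Real.tendsto_log_atTop.comp (Real.tendsto_log_atTop.comp Real.tendsto_log_atTop)

theorem F_pos : ∀ᶠ x : ℝ in atTop, 0 < F x := by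
  filter_upwards [tendsto_lll.eventually (eventually_gt_atTop 0), eventually_gt_atTop 0] with x h1 h2
  exact mul_pos (Real.sqrt_pos.2 h2) (Real.rpow_pos_of_pos h1 _)

theorem lll_mono {y x : ℝ} (hy : Real.exp (Real.exp 1) ≤ y) (hyx : y ≤ x) :
    0 ≤ Real.log (Real.log (Real.log y)) ∧
      Real.log (Real.log (Real.log y)) ≤ Real.log (Real.log (Real.log x)) := by
  have hy0 : 0 < y := lt_of_lt_of_le (Real.exp_pos _) hy
  have h1 : Real.exp 1 ≤ Real.log y := (Real.le_log_iff_exp_le hy0).2 hy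
  have hl0 : 0 < Real.log y := lt_of_lt_of_le (Real.exp_pos _) h1
  have h2 : 1 ≤ Real.log (Real.log y) := (Real.le_log_iff_exp_le hl0).2 h1
  have h3 : Real.log y ≤ Real.log x := Real.log_le_log hy0 hyx
  have h4 : Real.log (Real.log y) ≤ Real.log (Real.log x) := Real.log_le_log hl0 h3
  exact ⟨Real.log_nonneg h2, Real.log_le_log (by linarith) h4⟩

theorem key (a g : ArithmeticFunction ℝ) (hg : Wiener g) (B : ℝ) (hB : 0 ≤ B)
    (h : ∀ᶠ x : ℝ in atTop, |S a x| ≤ B * F x) (ε : ℝ) (hε : 0 < ε) :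
    ∀ᶠ x : ℝ in atTop, |S (g * a) x| ≤ (wnorm g * B + ε) * F x := by
  obtain ⟨x₁, hx₁⟩ := eventually_atTop.1 h
  set x₀ : ℝ := max x₁ (Real.exp (Real.exp 1)) with hx₀
  set C : ℝ := ∑ n ∈ Finset.Icc 1 ⌊x₀⌋₊, |a n| with hC
  have hC0 : 0 ≤ C := Finset.sum_nonneg fun _ _ => abs_nonneg _
  have hterm0 : ∀ d : ℕ, 0 ≤ |g d| * (d : ℝ) ^ (-(1 / 2 : ℝ)) := fun d => by positivity
  have hA0 : 0 ≤ wnorm g := tsum_nonneg hterm0
  have hbig : ∀ᶠ x : ℝ in atTop,
      C * wnorm g / ε ≤ Real.log (Real.log (Real.log x)) ^ ((5 : ℝ) / 4) :=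
    ((tendsto_rpow_atTop (by norm_num : (0 : ℝ) < 5 / 4)).comp tendsto_lll).eventually
      (eventually_ge_atTop _)
  filter_upwards [hbig, eventually_ge_atTop x₀, eventually_ge_atTop 1] with x h1 h2 h3
  have hx0 : 0 < x := by linarith
  have hxe : Real.exp (Real.exp 1) ≤ x := (le_max_right _ _).trans h2
  have hl := lll_mono hxe le_rfl
  have hF0 : 0 ≤ F x := mul_nonneg (Real.sqrt_nonneg _) (Real.rpow_nonneg hl.1 _)
  have hd : ∀ d ∈ Finset.Icc 1 ⌊x⌋₊,
      |S a (x / d)| ≤ (d : ℝ) ^ (-(1 / 2 : ℝ)) * (B * F x + C * Real.sqrt x) := by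
    intro d hd
    rw [Finset.mem_Icc] at hd
    have hd1 : (1 : ℝ) ≤ d := by exact_mod_cast hd.1
    have hd0 : (0 : ℝ) < d := by linarith
    have hdx : (d : ℝ) ≤ x := (Nat.cast_le.2 hd.2).trans (Nat.floor_le hx0.le)
    have hs : Real.sqrt (x / d) = (d : ℝ) ^ (-(1 / 2 : ℝ)) * Real.sqrt x := by
      rw [Real.sqrt_div hx0.le, Real.rpow_neg hd0.le, ← Real.sqrt_eq_rpow, div_eq_inv_mul]
    have hp : 0 ≤ (d : ℝ) ^ (-(1 / 2 : ℝ)) := by positivity
    rcases le_or_gt x₀ (x / d) with hc | hc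
    · have hy : Real.exp (Real.exp 1) ≤ x / d := (le_max_right _ _).trans hc
      have h4 := hx₁ (x / d) ((le_max_left _ _).trans hc)
      have h5 := lll_mono hy (div_le_self hx0.le hd1)
      have h6 : F (x / d) ≤ (d : ℝ) ^ (-(1 / 2 : ℝ)) * F x := by
        unfold F
        rw [hs, mul_assoc]
        apply mul_le_mul_of_nonneg_left _ hp
        apply mul_le_mul_of_nonneg_left _ (Real.sqrt_nonneg _)
        exact Real.rpow_le_rpow h5.1 h5.2 (by norm_num)
      calc |S a (x / d)| ≤ B * F (x / d) := h4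
        _ ≤ B * ((d : ℝ) ^ (-(1 / 2 : ℝ)) * F x) := mul_le_mul_of_nonneg_left h6 hB
        _ = (d : ℝ) ^ (-(1 / 2 : ℝ)) * (B * F x) := by ring
        _ ≤ _ := by
            apply mul_le_mul_of_nonneg_left _ hp
            have : 0 ≤ C * Real.sqrt x := mul_nonneg hC0 (Real.sqrt_nonneg _)
            linarith
    · have h4 : |S a (x / d)| ≤ C := abs_S_le a hc.le
      have h5 : 1 ≤ Real.sqrt (x / d) := by
        rw [Real.one_le_sqrt, one_le_div hd0]
        exact hdx
      rw [hs] at h5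
      calc |S a (x / d)| ≤ C * 1 := by linarith
        _ ≤ C * ((d : ℝ) ^ (-(1 / 2 : ℝ)) * Real.sqrt x) := mul_le_mul_of_nonneg_left h5 hC0
        _ = (d : ℝ) ^ (-(1 / 2 : ℝ)) * (C * Real.sqrt x) := by ring
        _ ≤ _ := by
            apply mul_le_mul_of_nonneg_left _ hp
            have : 0 ≤ B * F x := mul_nonneg hB hF0
            linarith
  have h7 : |S (g * a) x| ≤ wnorm g * (B * F x + C * Real.sqrt x) := by
    rw [S_mul]
    calc |∑ d ∈ Finset.Icc 1 ⌊x⌋₊, g d * S a (x / d)| ≤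
          ∑ d ∈ Finset.Icc 1 ⌊x⌋₊, |g d * S a (x / d)| := Finset.abs_sum_le_sum_abs _ _
      _ ≤ ∑ d ∈ Finset.Icc 1 ⌊x⌋₊,
          |g d| * (d : ℝ) ^ (-(1 / 2 : ℝ)) * (B * F x + C * Real.sqrt x) := by
          apply Finset.sum_le_sum
          intro d hd'
          rw [abs_mul, mul_assoc]
          exact mul_le_mul_of_nonneg_left (hd d hd') (abs_nonneg _)
      _ = (∑ d ∈ Finset.Icc 1 ⌊x⌋₊, |g d| * (d : ℝ) ^ (-(1 / 2 : ℝ))) *
          (B * F x + C * Real.sqrt x) := (Finset.sum_mul _ _ _).symm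
      _ ≤ _ := by
          apply mul_le_mul_of_nonneg_right _
            (add_nonneg (mul_nonneg hB hF0) (mul_nonneg hC0 (Real.sqrt_nonneg _)))
          exact hg.sum_le_tsum _ fun d _ => hterm0 d
  have h8 : wnorm g * (C * Real.sqrt x) ≤ ε * F x := by
    rw [div_le_iff₀ hε] at h1
    unfold F
    calc wnorm g * (C * Real.sqrt x) = (C * wnorm g) * Real.sqrt x := by ring
      _ ≤ (Real.log (Real.log (Real.log x)) ^ ((5 : ℝ) / 4) * ε) * Real.sqrt x :=
          mul_le_mul_of_nonneg_right h1 (Real.sqrt_nonneg _)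
      _ = _ := by ring
  calc |S (g * a) x| ≤ wnorm g * (B * F x + C * Real.sqrt x) := h7
    _ = wnorm g * B * F x + wnorm g * (C * Real.sqrt x) := by ring
    _ ≤ wnorm g * B * F x + ε * F x := by linarith
    _ = _ := by ring

theorem osc_mul_le (a g : ArithmeticFunction ℝ) (hg : Wiener g) (hpos : 0 < wnorm g) :
    osc (g * a) ≤ ENNReal.ofReal (wnorm g) * osc a := by
  by_cases htop : osc a = ⊤
  · rw [htop, ENNReal.mul_top]
    · exact le_top
    · exact (ENNReal.ofReal_pos.2 hpos).ne'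
  · set o : ℝ := (osc a).toReal with ho
    have ho0 : 0 ≤ o := ENNReal.toReal_nonneg
    have hoa : osc a = ENNReal.ofReal o := (ENNReal.ofReal_toReal htop).symm
    rw [hoa, ← ENNReal.ofReal_mul hpos.le]
    apply ENNReal.le_of_forall_pos_le_add
    intro ε hε _
    have hεR : (0 : ℝ) < ε := hε
    set η : ℝ := (ε : ℝ) / (wnorm g + 1) with hη
    have hη0 : 0 < η := by positivity
    have h1 : osc a < ENNReal.ofReal (o + η) := by
      rw [hoa]
      exact (ENNReal.ofReal_lt_ofReal_iff (by linarith)).2 (by linarith)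
    have h2 : ∀ᶠ x : ℝ in atTop, |S a x| ≤ (o + η) * F x := by
      filter_upwards [eventually_lt_of_limsup_lt h1, F_pos] with x h3 h4
      have h5 := (ENNReal.ofReal_lt_ofReal_iff (by linarith : 0 < o + η)).1 h3
      rw [div_lt_iff₀ h4] at h5
      exact h5.le
    have h3 := key a g hg (o + η) (by linarith) h2 η hη0
    have h4 : osc (g * a) ≤ ENNReal.ofReal (wnorm g * (o + η) + η) := by
      apply limsup_le_of_le
      · isBoundedDefault
      · filter_upwards [h3, F_pos] with x h5 h6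
        apply ENNReal.ofReal_le_ofReal
        rw [div_le_iff₀ h6]
        exact h5
    refine h4.trans ?_
    have h5 : wnorm g * (o + η) + η = wnorm g * o + ε := by
      have : (wnorm g + 1) * η = ε := by
        rw [hη]
        field_simp
      linarith
    rw [h5, ENNReal.ofReal_add (mul_nonneg hpos.le ho0) hεR.le, ENNReal.ofReal_coe_nnreal]

theorem wnorm_pos (g g' : ArithmeticFunction ℝ) (h : g * g' = 1) (hg : Wiener g) : 0 < wnorm g := by
  have h1 : g 1 ≠ 0 := by
    intro h0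
    have h2 := congrArg (fun f : ArithmeticFunction ℝ => f 1) h
    simp only [ArithmeticFunction.mul_apply_one, ArithmeticFunction.one_one, h0, zero_mul] at h2
    exact zero_ne_one h2
  have h2 : |g 1| * ((1 : ℕ) : ℝ) ^ (-(1 / 2 : ℝ)) ≤ wnorm g :=
    hg.le_tsum 1 fun d _ => by positivity
  have h3 : 0 < |g 1| := abs_pos.2 h1
  simp only [Nat.cast_one, Real.one_rpow, mul_one] at h2
  linarith

theorem osc_of_gonek (a : ArithmeticFunction ℝ) (h : Gonek a) : 0 < osc a ∧ osc a < ⊤ := by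
  obtain ⟨B, hB, hl, hu⟩ := h
  constructor
  · have h1 : ((B / 2 : ℝ) : EReal) <
        limsup (fun x : ℝ => ((S a x / F x : ℝ) : EReal)) atTop := by
      rw [hu]
      exact EReal.coe_lt_coe_iff.2 (by linarith)
    have h2 := frequently_lt_of_lt_limsup (by isBoundedDefault) h1
    have h3 : ENNReal.ofReal (B / 2) ≤ osc a := by
      apply le_limsup_of_frequently_le
      · refine (h2.and_eventually F_pos).mono fun x hx => ?_
        apply ENNReal.ofReal_le_ofReal
        have h4 : B / 2 < S a x / F x := EReal.coe_lt_coe_iff.1 hx.1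
        rw [← abs_of_pos hx.2, ← abs_div]
        exact h4.le.trans (le_abs_self _)
      · isBoundedDefault
    exact lt_of_lt_of_le (ENNReal.ofReal_pos.2 (by linarith)) h3
  · have h1 : limsup (fun x : ℝ => ((S a x / F x : ℝ) : EReal)) atTop < ((B + 1 : ℝ) : EReal) := by
      rw [hu]
      exact EReal.coe_lt_coe_iff.2 (by linarith)
    have h2 : ((-(B + 1) : ℝ) : EReal) <
        liminf (fun x : ℝ => ((S a x / F x : ℝ) : EReal)) atTop := by
      rw [hl]
      exact EReal.coe_lt_coe_iff.2 (by linarith)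
    have h3 : osc a ≤ ENNReal.ofReal (B + 1) := by
      apply limsup_le_of_le
      · isBoundedDefault
      · filter_upwards [eventually_lt_of_limsup_lt h1, eventually_lt_of_lt_liminf h2, F_pos]
          with x h4 h5 h6
        apply ENNReal.ofReal_le_ofReal
        have h7 : S a x / F x < B + 1 := EReal.coe_lt_coe_iff.1 h4
        have h8 : -(B + 1) < S a x / F x := EReal.coe_lt_coe_iff.1 h5
        rw [← abs_of_pos h6, ← abs_div]
        exact (abs_lt.2 ⟨h8, h7⟩).le
    exact lt_of_le_of_lt h3 ENNReal.ofReal_lt_top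

theorem osc_general (a g g' : ArithmeticFunction ℝ) (h : g * g' = 1) (hg : Wiener g)
    (hg' : Wiener g') :
    osc (g * a) ≤ ENNReal.ofReal (wnorm g) * osc a ∧
      osc a ≤ ENNReal.ofReal (wnorm g') * osc (g * a) := by
  have hinv : g' * (g * a) = a := by
    rw [← mul_assoc, mul_comm g' g, h, one_mul]
  refine ⟨osc_mul_le a g hg (wnorm_pos g g' h hg), ?_⟩
  have := osc_mul_le (g * a) g' hg' (wnorm_pos g' g (by rw [mul_comm]; exact h) hg')
  rwa [hinv] at this

/-! ### the Liouville function -/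

open scoped Classical in
/-- the Liouville function -/
noncomputable def lam : ArithmeticFunction ℝ :=
  ⟨fun n => if n = 0 then 0 else (-1) ^ (ArithmeticFunction.cardFactors n), by simp⟩

theorem lam_apply (n : ℕ) :
    lam n = if n = 0 then 0 else (-1) ^ (ArithmeticFunction.cardFactors n) := by
  classical
  change (if n = 0 then (0 : ℝ) else (-1) ^ (ArithmeticFunction.cardFactors n)) = _
  congr

theorem lam_mul (m n : ℕ) : lam (m * n) = lam m * lam n := by
  rw [lam_apply, lam_apply, lam_apply]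
  by_cases hm : m = 0
  · simp [hm]
  by_cases hn : n = 0
  · simp [hn]
  rw [if_neg (mul_ne_zero hm hn), if_neg hm, if_neg hn,
    ArithmeticFunction.cardFactors_mul hm hn, pow_add]

theorem lam_one : lam 1 = 1 := by
  rw [lam_apply]
  simp

theorem abs_lam_le (n : ℕ) : |lam n| ≤ 1 := by
  rw [lam_apply]
  split_ifs
  · simp
  · simp [abs_pow]

/-- multiplication by a completely multiplicative function -/
theorem pmul_mul (h : ArithmeticFunction ℝ) (hm : ∀ m n, h (m * n) = h m * h n)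
    (f g : ArithmeticFunction ℝ) : (f.pmul h) * (g.pmul h) = (f * g).pmul h := by
  ext n
  rw [ArithmeticFunction.mul_apply, ArithmeticFunction.pmul_apply, ArithmeticFunction.mul_apply,
    Finset.sum_mul]
  apply Finset.sum_congr rfl
  intro x hx
  rw [Nat.mem_divisorsAntidiagonal] at hx
  rw [ArithmeticFunction.pmul_apply, ArithmeticFunction.pmul_apply, ← hx.1, hm]
  ring

theorem one_pmul_lam : (1 : ArithmeticFunction ℝ).pmul lam = 1 := by
  ext n
  rw [ArithmeticFunction.pmul_apply]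
  by_cases hn : n = 1
  · rw [hn, ArithmeticFunction.one_one, lam_one, mul_one]
  · rw [ArithmeticFunction.one_apply_ne hn, zero_mul]

open scoped Classical in
/-- the indicator of the integers without prime factors in `P` -/
noncomputable def cop (P : Set ℕ) : ArithmeticFunction ℝ :=
  ⟨fun n => if n ≠ 0 ∧ ∀ p ∈ P, ¬ p ∣ n then 1 else 0, by simp⟩

open scoped Classical in
theorem cop_apply (P : Set ℕ) (n : ℕ) :
    cop P n = if n ≠ 0 ∧ ∀ p ∈ P, ¬ p ∣ n then 1 else 0 := rfl

theorem cop_mult (P : Set ℕ) (hP : ∀ p ∈ P, p.Prime) : (cop P).IsMultiplicative := by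
  classical
  refine ⟨?_, ?_⟩
  · rw [cop_apply, if_pos]
    refine ⟨one_ne_zero, fun p hp hd => ?_⟩
    exact (hP p hp).one_lt.ne' (Nat.dvd_one.1 hd)
  · intro m n hmn
    rw [cop_apply, cop_apply, cop_apply]
    have h : (m * n ≠ 0 ∧ ∀ p ∈ P, ¬ p ∣ m * n) ↔
        (m ≠ 0 ∧ ∀ p ∈ P, ¬ p ∣ m) ∧ (n ≠ 0 ∧ ∀ p ∈ P, ¬ p ∣ n) := by
      constructor
      · rintro ⟨h0, h⟩
        rw [mul_ne_zero_iff] at h0
        exact ⟨⟨h0.1, fun p hp hd => h p hp (hd.mul_right n)⟩,
          ⟨h0.2, fun p hp hd => h p hp (hd.mul_left m)⟩⟩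
      · rintro ⟨⟨h0, h1⟩, ⟨h0', h2⟩⟩
        refine ⟨mul_ne_zero h0 h0', fun p hp hd => ?_⟩
        rcases ((hP p hp).dvd_mul).1 hd with hd | hd
        · exact h1 p hp hd
        · exact h2 p hp hd
    by_cases h1 : m ≠ 0 ∧ ∀ p ∈ P, ¬ p ∣ m
    · by_cases h2 : n ≠ 0 ∧ ∀ p ∈ P, ¬ p ∣ n
      · rw [if_pos (h.2 ⟨h1, h2⟩), if_pos h1, if_pos h2, mul_one]
      · rw [if_neg (fun hh => h2 (h.1 hh).2), if_neg h2, mul_zero]
    · rw [if_neg (fun hh => h1 (h.1 hh).1), if_neg h1, zero_mul]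

theorem ind_mul_cop (P : Set ℕ) (hP : ∀ p ∈ P, p.Prime) :
    ind P * cop P = ((ArithmeticFunction.zeta : ArithmeticFunction ℕ) : ArithmeticFunction ℝ) := by
  classical
  have hz : ((ArithmeticFunction.zeta : ArithmeticFunction ℕ) :
      ArithmeticFunction ℝ).IsMultiplicative := ArithmeticFunction.isMultiplicative_zeta.natCast
  rw [((ind_mult P).mul (cop_mult P hP)).eq_iff_eq_on_prime_powers _ _ hz]
  intro p i hp
  have hpi0 : p ^ i ≠ 0 := (Nat.pow_pos hp.pos).ne'
  have hz1 : ((ArithmeticFunction.zeta : ArithmeticFunction ℕ) : ArithmeticFunction ℝ) (p ^ i) = 1 := by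
    rw [ArithmeticFunction.natCoe_apply, ArithmeticFunction.zeta_apply_ne hpi0]
    simp
  rw [hz1]
  by_cases hpP : p ∈ P
  · rw [ArithmeticFunction.mul_apply, Finset.sum_eq_single (p ^ i, 1)]
    · rw [(cop_mult P hP).1, mul_one, ind_apply, if_pos]
      refine ⟨hpi0, fun r hr hd => ?_⟩
      rw [(Nat.prime_dvd_prime_iff_eq hr hp).1 (hr.dvd_of_dvd_pow hd)]
      exact hpP
    · intro x hx hne
      rw [Nat.mem_divisorsAntidiagonal] at hx
      have hx1 : x.2 ≠ 1 := by
        intro h1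
        apply hne
        rw [h1, mul_one] at hx
        exact Prod.ext hx.1 h1
      have hxd : x.2 ∣ p ^ i := ⟨x.1, by rw [mul_comm]; exact hx.1.symm⟩
      obtain ⟨j, hj, hxj⟩ := (Nat.dvd_prime_pow hp).1 hxd
      have hj0 : j ≠ 0 := by
        rintro rfl
        exact hx1 (by rw [hxj, pow_zero])
      rw [cop_apply, if_neg, mul_zero]
      rintro ⟨-, h⟩
      exact h p hpP (by rw [hxj]; exact dvd_pow_self p hj0)
    · intro h
      exfalso
      apply h
      rw [Nat.mem_divisorsAntidiagonal]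
      exact ⟨mul_one _, hpi0⟩
  · rw [ArithmeticFunction.mul_apply, Finset.sum_eq_single (1, p ^ i)]
    · rw [ind_one, one_mul, cop_apply, if_pos]
      refine ⟨hpi0, fun r hr hd => ?_⟩
      have := (Nat.prime_dvd_prime_iff_eq (hP r hr) hp).1 ((hP r hr).dvd_of_dvd_pow hd)
      rw [this] at hr
      exact hpP hr
    · intro x hx hne
      rw [Nat.mem_divisorsAntidiagonal] at hx
      have hx1 : x.1 ≠ 1 := by
        intro h1
        apply hne
        rw [h1, one_mul] at hx
        exact Prod.ext h1 hx.1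
      have hxd : x.1 ∣ p ^ i := ⟨x.2, hx.1.symm⟩
      obtain ⟨j, hj, hxj⟩ := (Nat.dvd_prime_pow hp).1 hxd
      have hj0 : j ≠ 0 := by
        rintro rfl
        exact hx1 (by rw [hxj, pow_zero])
      rw [ind_apply, if_neg, zero_mul]
      rintro ⟨-, h⟩
      exact hpP (h p hp (by rw [hxj]; exact dvd_pow_self p hj0))
    · intro h
      exfalso
      apply h
      rw [Nat.mem_divisorsAntidiagonal]
      exact ⟨one_mul _, hpi0⟩

/-- `λ(n)` if `n` has no prime factor in `P`, otherwise `0` -/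
noncomputable def lamP (P : Set ℕ) : ArithmeticFunction ℝ := (cop P).pmul lam

theorem zeta_pmul_lam :
    ((ArithmeticFunction.zeta : ArithmeticFunction ℕ) : ArithmeticFunction ℝ).pmul lam = lam := by
  ext n
  rw [ArithmeticFunction.pmul_apply, ArithmeticFunction.natCoe_apply]
  by_cases hn : n = 0
  · simp [hn]
  · rw [ArithmeticFunction.zeta_apply_ne hn]
    simp

theorem wnorm_le_of_abs_le (f g : ArithmeticFunction ℝ) (h : ∀ n, |f n| ≤ |g n|) (hg : Wiener g) :
    Wiener f ∧ wnorm f ≤ wnorm g := by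
  have hf : Wiener f := Summable.of_nonneg_of_le (fun d => by positivity)
    (fun d => mul_le_mul_of_nonneg_right (h d) (by positivity)) hg
  exact ⟨hf, Summable.tsum_le_tsum (fun d => mul_le_mul_of_nonneg_right (h d) (by positivity)) hf hg⟩

theorem osc_main :
    (∀ a g g' : ArithmeticFunction ℝ, g * g' = 1 → Wiener g → Wiener g' →
      osc (g * a) ≤ ENNReal.ofReal (wnorm g) * osc a ∧
      osc a ≤ ENNReal.ofReal (wnorm g') * osc (g * a) ∧
      (Gonek a → 0 < osc (g * a) ∧ osc (g * a) < ⊤)) ∧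
    (∀ P : Set ℕ, (∀ p ∈ P, p.Prime) →
      (Summable fun p : P => ((p : ℕ) : ℝ) ^ (-(1 / 2 : ℝ))) →
      Wiener (ind P) ∧
      osc (muP P) ≤ ENNReal.ofReal (wnorm (ind P)) * osc mu ∧
      osc mu ≤ ENNReal.ofReal (wnorm (ind P)) * osc (muP P) ∧
      osc (lamP P) ≤ ENNReal.ofReal (wnorm (ind P)) * osc lam ∧
      osc lam ≤ ENNReal.ofReal (wnorm (ind P)) * osc (lamP P) ∧
      (Gonek mu → 0 < osc (muP P) ∧ osc (muP P) < ⊤) ∧
      (Gonek lam → 0 < osc (lamP P) ∧ osc (lamP P) < ⊤)) := by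
  have hgen : ∀ a g g' : ArithmeticFunction ℝ, g * g' = 1 → Wiener g → Wiener g' →
      osc (g * a) ≤ ENNReal.ofReal (wnorm g) * osc a ∧
      osc a ≤ ENNReal.ofReal (wnorm g') * osc (g * a) ∧
      (Gonek a → 0 < osc (g * a) ∧ osc (g * a) < ⊤) := by
    intro a g g' h hg hg'
    obtain ⟨h1, h2⟩ := osc_general a g g' h hg hg'
    refine ⟨h1, h2, fun hG => ?_⟩
    obtain ⟨h3, h4⟩ := osc_of_gonek a hG
    constructor
    · rw [pos_iff_ne_zero]
      intro h0
      rw [h0, mul_zero] at h2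
      exact absurd h3 (not_lt.2 h2)
    · exact lt_of_le_of_lt h1 (ENNReal.mul_lt_top ENNReal.ofReal_lt_top h4)
  refine ⟨hgen, fun P hP hs => ?_⟩
  have hW := wiener_ind P hP hs
  have hmu := hgen mu (ind P) ((ind P).pmul mu) (ind_mul_pmul P) hW (wiener_pmul P hW)
  rw [ind_mul_mu P hP] at hmu
  have h1 : wnorm ((ind P).pmul mu) ≤ wnorm (ind P) := (wnorm_le_of_abs_le _ _ (fun n => by
    rw [ArithmeticFunction.pmul_apply, abs_mul]
    calc |ind P n| * |mu n| ≤ |ind P n| * 1 := mul_le_mul_of_nonneg_left (abs_mu_le n) (abs_nonneg _)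
      _ = _ := mul_one _) hW).2
  -- the Liouville function
  set g : ArithmeticFunction ℝ := ((ind P).pmul mu).pmul lam with hg
  set g' : ArithmeticFunction ℝ := (ind P).pmul lam with hg'
  have hgg : g' * g = 1 := by
    rw [hg, hg', pmul_mul lam lam_mul, ind_mul_pmul, one_pmul_lam]
  have hgl : g' * lamP P = lam := by
    rw [hg', lamP, pmul_mul lam lam_mul, ind_mul_cop P hP, zeta_pmul_lam]
  have hgl' : g * lam = lamP P := by
    rw [← hgl, ← mul_assoc, mul_comm g g', hgg, one_mul]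
  have hn' := wnorm_le_of_abs_le g' (ind P) (fun n => by
    rw [hg', ArithmeticFunction.pmul_apply, abs_mul]
    calc |ind P n| * |lam n| ≤ |ind P n| * 1 :=
          mul_le_mul_of_nonneg_left (abs_lam_le n) (abs_nonneg _)
      _ = _ := mul_one _) hW
  have hn := wnorm_le_of_abs_le g (ind P) (fun n => by
    rw [hg, ArithmeticFunction.pmul_apply, ArithmeticFunction.pmul_apply, abs_mul, abs_mul]
    calc |ind P n| * |mu n| * |lam n| ≤ |ind P n| * 1 * 1 := by
          apply mul_le_mul _ (abs_lam_le n) (abs_nonneg _) (by positivity)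
          exact mul_le_mul_of_nonneg_left (abs_mu_le n) (abs_nonneg _)
      _ = _ := by ring) hW
  have hlam := hgen lam g g' (by rw [mul_comm]; exact hgg) hn.1 hn'.1
  rw [hgl'] at hlam
  refine ⟨hW, hmu.1, hmu.2.1.trans ?_, hlam.1.trans ?_, hlam.2.1.trans ?_, hmu.2.2, hlam.2.2⟩
  · exact mul_le_mul_left (ENNReal.ofReal_le_ofReal h1) _
  · exact mul_le_mul_left (ENNReal.ofReal_le_ofReal hn.2) _
  · exact mul_le_mul_left (ENNReal.ofReal_le_ofReal hn'.2) _

end Pool.Agent.X159.WM
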