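import Pool.Agent.X159.WM.Osc
import Pool.Agent.Helper112.Arith

/-!
Exponential sums and Dirichlet convolution.
-/

set_option autoImplicit false

open Finset ArithmeticFunction

namespace Pool.Agent.X159.WM

/-- `∑_{n ≤ R} a(n) e^{2πinx}` -/
noncomputable def expSum (a : ArithmeticFunction ℝ) (R : ℕ) (x : ℝ) : ℂ :=
  ∑ n ∈ Finset.Icc 1 R, ((a n : ℝ) : ℂ) * Complex.exp (((2 * Real.pi * n * x : ℝ) : ℂ) * Complex.I)

/-- the sup norms are `O(R^(θ+ε))` for every `ε > 0` -/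
def SupBound (a : ArithmeticFunction ℝ) (θ : ℝ) : Prop :=
  ∀ ε : ℝ, 0 < ε → ∃ C : ℝ, ∀ R : ℕ, 1 ≤ R → ∀ x : ℝ, ‖expSum a R x‖ ≤ C * (R : ℝ) ^ (θ + ε)

/-- `∑ |g(d)| d^(-σ)` converges for every `σ > 1/2` -/
def Half (g : ArithmeticFunction ℝ) : Prop :=
  ∀ σ : ℝ, 1 / 2 < σ → Summable fun d : ℕ => |g d| * (d : ℝ) ^ (-σ)

theorem sum_divisors_swapC (K : ℕ) (F : ℕ → ℕ → ℂ) :
    ∑ n ∈ Finset.Icc 1 K, ∑ x ∈ n.divisorsAntidiagonal, F x.1 x.2 =
      ∑ d ∈ Finset.Icc 1 K, ∑ m ∈ Finset.Icc 1 (K / d), F d m := by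
  rw [Finset.sum_sigma', Finset.sum_sigma']
  refine Finset.sum_bij' (fun x _ => ⟨x.2.1, x.2.2⟩) (fun x _ => ⟨x.1 * x.2, (x.1, x.2)⟩)
    ?_ ?_ ?_ ?_ ?_
  · rintro ⟨n, d, m⟩ h
    simp only [Finset.mem_sigma, Finset.mem_Icc, Nat.mem_divisorsAntidiagonal] at h ⊢
    obtain ⟨⟨h1, h2⟩, h3, h4⟩ := h
    have hd : d ≠ 0 := by rintro rfl; simp at h3; omega
    have hm : m ≠ 0 := by rintro rfl; simp at h3; omega
    refine ⟨⟨Nat.pos_of_ne_zero hd, ?_⟩, Nat.pos_of_ne_zero hm, ?_⟩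
    · calc d ≤ d * m := Nat.le_mul_of_pos_right _ (Nat.pos_of_ne_zero hm)
        _ ≤ K := by omega
    · rw [Nat.le_div_iff_mul_le (Nat.pos_of_ne_zero hd), mul_comm]
      omega
  · rintro ⟨d, m⟩ h
    simp only [Finset.mem_sigma, Finset.mem_Icc, Nat.mem_divisorsAntidiagonal] at h ⊢
    obtain ⟨⟨h1, h2⟩, h3, h4⟩ := h
    rw [Nat.le_div_iff_mul_le (by omega), mul_comm] at h4
    exact ⟨⟨Nat.mul_pos h1 h3, h4⟩, trivial, (Nat.mul_pos h1 h3).ne'⟩
  · rintro ⟨n, d, m⟩ h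
    simp only [Finset.mem_sigma, Finset.mem_Icc, Nat.mem_divisorsAntidiagonal] at h
    obtain ⟨-, h3, -⟩ := h
    subst h3
    rfl
  · rintro ⟨d, m⟩ _
    rfl
  · rintro ⟨n, d, m⟩ _
    rfl

theorem expSum_mul (g a : ArithmeticFunction ℝ) (R : ℕ) (x : ℝ) :
    expSum (g * a) R x = ∑ d ∈ Finset.Icc 1 R, ((g d : ℝ) : ℂ) * expSum a (R / d) (d * x) := by
  unfold expSum
  have h1 : ∀ n ∈ Finset.Icc 1 R, (((g * a) n : ℝ) : ℂ) *
      Complex.exp (((2 * Real.pi * n * x : ℝ) : ℂ) * Complex.I) =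
      ∑ y ∈ n.divisorsAntidiagonal, (((g y.1 : ℝ) : ℂ) * (((a y.2 : ℝ) : ℂ) *
        Complex.exp (((2 * Real.pi * y.2 * (y.1 * x) : ℝ) : ℂ) * Complex.I))) := by
    intro n _
    rw [ArithmeticFunction.mul_apply, Complex.ofReal_sum, Finset.sum_mul]
    apply Finset.sum_congr rfl
    intro y hy
    rw [Nat.mem_divisorsAntidiagonal] at hy
    have h2 : (n : ℝ) = (y.1 : ℝ) * y.2 := by
      rw [← hy.1]
      push_cast
      ring
    rw [h2, Complex.ofReal_mul, mul_assoc]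
    congr 4
    push_cast
    ring
  rw [Finset.sum_congr rfl h1, sum_divisors_swapC R (fun d m => ((g d : ℝ) : ℂ) *
    (((a m : ℝ) : ℂ) * Complex.exp (((2 * Real.pi * m * (d * x) : ℝ) : ℂ) * Complex.I)))]
  apply Finset.sum_congr rfl
  intro d _
  rw [Finset.mul_sum]

theorem supBound_mul {a g : ArithmeticFunction ℝ} (hg : Half g) {θ : ℝ} (hθ : 1 / 2 ≤ θ)
    (h : SupBound a θ) : SupBound (g * a) θ := by
  intro ε hε
  obtain ⟨C, hC⟩ := h ε hε
  have hC0 : 0 ≤ C := by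
    have := hC 1 le_rfl 0
    rw [Nat.cast_one, Real.one_rpow, mul_one] at this
    exact (norm_nonneg _).trans this
  have hs := hg (θ + ε) (by linarith)
  refine ⟨C * ∑' d : ℕ, |g d| * (d : ℝ) ^ (-(θ + ε)), ?_⟩
  intro R hR x
  have hR0 : (0 : ℝ) < R := by exact_mod_cast hR
  rw [expSum_mul]
  calc ‖∑ d ∈ Finset.Icc 1 R, ((g d : ℝ) : ℂ) * expSum a (R / d) (d * x)‖ ≤
        ∑ d ∈ Finset.Icc 1 R, ‖((g d : ℝ) : ℂ) * expSum a (R / d) (d * x)‖ := norm_sum_le _ _
    _ ≤ ∑ d ∈ Finset.Icc 1 R, (C * (R : ℝ) ^ (θ + ε)) * (|g d| * (d : ℝ) ^ (-(θ + ε))) := by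
        apply Finset.sum_le_sum
        intro d hd
        rw [Finset.mem_Icc] at hd
        have hd0 : (0 : ℝ) < d := by exact_mod_cast hd.1
        have h1 : 1 ≤ R / d := (Nat.one_le_div_iff hd.1).2 hd.2
        have h2 := hC (R / d) h1 (d * x)
        have h3 : ((R / d : ℕ) : ℝ) ^ (θ + ε) ≤ (R : ℝ) ^ (θ + ε) * (d : ℝ) ^ (-(θ + ε)) := by
          have h4 : ((R / d : ℕ) : ℝ) ≤ (R : ℝ) / d := Nat.cast_div_le
          calc ((R / d : ℕ) : ℝ) ^ (θ + ε) ≤ ((R : ℝ) / d) ^ (θ + ε) :=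
                Real.rpow_le_rpow (Nat.cast_nonneg _) h4 (by linarith)
            _ = _ := by
                rw [Real.div_rpow hR0.le hd0.le, Real.rpow_neg hd0.le, div_eq_mul_inv]
        rw [norm_mul, Complex.norm_real, Real.norm_eq_abs]
        calc |g d| * ‖expSum a (R / d) (d * x)‖ ≤
              |g d| * (C * ((R : ℝ) ^ (θ + ε) * (d : ℝ) ^ (-(θ + ε)))) :=
              mul_le_mul_of_nonneg_left (h2.trans (mul_le_mul_of_nonneg_left h3 hC0))
                (abs_nonneg _)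
          _ = _ := by ring
    _ = (C * (R : ℝ) ^ (θ + ε)) * ∑ d ∈ Finset.Icc 1 R, (|g d| * (d : ℝ) ^ (-(θ + ε))) := by
        rw [Finset.mul_sum]
    _ ≤ (C * (R : ℝ) ^ (θ + ε)) * ∑' d : ℕ, |g d| * (d : ℝ) ^ (-(θ + ε)) :=
        mul_le_mul_of_nonneg_left (hs.sum_le_tsum _ fun d _ => by positivity) (by positivity)
    _ = _ := by ring

/-! ### Multiplicative functions supported on squarefull integers -/

theorem squarefull_decomp {n : ℕ} (hn : n ≠ 0) (h : ∀ p : ℕ, p.Prime → p ∣ n → p ^ 2 ∣ n) :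
    ∃ c a : ℕ, c ≠ 0 ∧ a ≠ 0 ∧ n = c ^ 2 * a ^ 3 := by
  obtain ⟨a, b, ha, hb, hab, hsq⟩ := Nat.sq_mul_squarefree_of_pos (Nat.pos_of_ne_zero hn)
  have hdvd : a ∣ b := by
    rw [← Nat.prod_primeFactors_of_squarefree hsq]
    apply Finset.prod_primes_dvd
    · intro p hp
      exact (Nat.prime_of_mem_primeFactors hp).prime
    · intro p hp
      have hpp := Nat.prime_of_mem_primeFactors hp
      have hpa := Nat.dvd_of_mem_primeFactors hp
      by_contra hpb
      have h1 : p ^ 2 ∣ b ^ 2 * a := by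
        rw [hab]
        exact h p hpp (by rw [← hab]; exact hpa.mul_left _)
      have h2 : Nat.Coprime (p ^ 2) (b ^ 2) :=
        Nat.Coprime.pow 2 2 ((Nat.Prime.coprime_iff_not_dvd hpp).2 hpb)
      have h3 : p ^ 2 ∣ a := h2.dvd_of_dvd_mul_left h1
      have h4 := hsq p (by rw [← pow_two]; exact h3)
      exact hpp.one_lt.ne' (Nat.isUnit_iff.1 h4)
  obtain ⟨c, hc⟩ := hdvd
  refine ⟨c, a, ?_, ha.ne', ?_⟩
  · rintro rfl
    rw [mul_zero] at hc
    omega
  · rw [← hab, hc]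
    ring

theorem half_of_mult (h : ArithmeticFunction ℝ) (hm : h.IsMultiplicative)
    (hp : ∀ p : ℕ, p.Prime → h p = 0) (hb : ∀ p k : ℕ, p.Prime → |h (p ^ k)| ≤ k + 1) :
    Half h := by
  intro σ hσ
  set η : ℝ := (σ - 1 / 2) / 2 with hη
  have hη0 : 0 < η := by
    rw [hη]
    linarith
  obtain ⟨C, hC0, hC⟩ := Pool.Agent.Helper112.divisor_bound η hη0
  set τ : ℝ := σ - η with hτ
  have hτ1 : 1 < 2 * τ := by
    rw [hτ, hη]
    linarith
  -- the size
  have hsize : ∀ d : ℕ, d ≠ 0 → |h d| ≤ (d.divisors.card : ℝ) := by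
    intro d hd
    rw [ArithmeticFunction.IsMultiplicative.multiplicative_factorization h hm hd,
      Nat.card_divisors hd, Finsupp.prod, Finset.abs_prod]
    push_cast
    apply Finset.prod_le_prod
    · intro p _
      exact abs_nonneg _
    · intro p hpm
      exact hb p _ (Nat.prime_of_mem_primeFactors hpm)
  have hfull : ∀ d : ℕ, d ≠ 0 → h d ≠ 0 → ∀ p : ℕ, p.Prime → p ∣ d → p ^ 2 ∣ d := by
    intro d hd hne p hpp hpd
    by_contra hno
    apply hne
    rw [ArithmeticFunction.IsMultiplicative.multiplicative_factorization h hm hd, Finsupp.prod]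
    have hmem : p ∈ d.factorization.support := by
      rw [Nat.support_factorization]
      exact Nat.mem_primeFactors.2 ⟨hpp, hpd, hd⟩
    apply Finset.prod_eq_zero hmem
    have h1 : 1 ≤ d.factorization p := (hpp.dvd_iff_one_le_factorization hd).1 hpd
    have h2 : ¬ 2 ≤ d.factorization p := fun h2 =>
      hno ((hpp.pow_dvd_iff_le_factorization hd).2 h2)
    have h3 : d.factorization p = 1 := by omega
    rw [h3, pow_one]
    exact hp p hpp
  -- the double series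
  have hs2 : Summable fun n : ℕ => (n : ℝ) ^ (-(2 * τ)) :=
    Real.summable_nat_rpow.2 (by linarith)
  have hs3 : Summable fun n : ℕ => (n : ℝ) ^ (-(3 * τ)) :=
    Real.summable_nat_rpow.2 (by linarith)
  have hs : Summable fun x : ℕ × ℕ => (x.1 : ℝ) ^ (-(2 * τ)) * (x.2 : ℝ) ^ (-(3 * τ)) :=
    hs2.mul_of_nonneg hs3 (fun n => by positivity) (fun n => by positivity)
  classical
  choose! c a hc0 ha0 hca using fun (d : ℕ) (hd : d ≠ 0 ∧ h d ≠ 0) =>
    squarefull_decomp hd.1 (hfull d hd.1 hd.2)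
  apply summable_of_sum_le
    (c := C * ∑' x : ℕ × ℕ, (x.1 : ℝ) ^ (-(2 * τ)) * (x.2 : ℝ) ^ (-(3 * τ)))
    (fun d => by positivity)
  intro s
  set s' : Finset ℕ := s.filter (fun d => d ≠ 0 ∧ h d ≠ 0) with hs'
  have h1 : ∑ d ∈ s, |h d| * (d : ℝ) ^ (-σ) = ∑ d ∈ s', |h d| * (d : ℝ) ^ (-σ) := by
    rw [hs', Finset.sum_filter]
    apply Finset.sum_congr rfl
    intro d _
    split_ifs with hd
    · rfl
    · rw [not_and_or, not_not, not_not] at hd
      rcases hd with rfl | hd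
      · simp
      · simp [hd]
  have hinj : Set.InjOn (fun d : ℕ => (c d, a d)) (s' : Set ℕ) := by
    intro d hd e he hde
    have hd' := (Finset.mem_filter.1 hd).2
    have he' := (Finset.mem_filter.1 he).2
    simp only [Prod.mk.injEq] at hde
    rw [hca d hd', hca e he', hde.1, hde.2]
  rw [h1]
  calc ∑ d ∈ s', |h d| * (d : ℝ) ^ (-σ) ≤
        ∑ d ∈ s', C * (((c d : ℕ) : ℝ) ^ (-(2 * τ)) * ((a d : ℕ) : ℝ) ^ (-(3 * τ))) := by
        apply Finset.sum_le_sum
        intro d hd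
        have hd' := (Finset.mem_filter.1 hd).2
        have hd1 : 1 ≤ d := Nat.pos_of_ne_zero hd'.1
        have hd0 : (0 : ℝ) < d := by exact_mod_cast hd1
        have hcd : (0 : ℝ) < c d := by exact_mod_cast Nat.pos_of_ne_zero (hc0 d hd')
        have had : (0 : ℝ) < a d := by exact_mod_cast Nat.pos_of_ne_zero (ha0 d hd')
        have h2 : |h d| ≤ C * (d : ℝ) ^ η := (hsize d hd'.1).trans (hC d hd1)
        have h3 : (d : ℝ) ^ (-τ) =
            ((c d : ℕ) : ℝ) ^ (-(2 * τ)) * ((a d : ℕ) : ℝ) ^ (-(3 * τ)) := by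
          have h4 : (d : ℝ) = (c d : ℝ) ^ (2 : ℕ) * (a d : ℝ) ^ (3 : ℕ) := by
            exact_mod_cast hca d hd'
          rw [h4, Real.mul_rpow (by positivity) (by positivity), ← Real.rpow_natCast,
            ← Real.rpow_natCast, ← Real.rpow_mul hcd.le, ← Real.rpow_mul had.le]
          congr 2 <;> · push_cast; ring
        calc |h d| * (d : ℝ) ^ (-σ) ≤ (C * (d : ℝ) ^ η) * (d : ℝ) ^ (-σ) :=
              mul_le_mul_of_nonneg_right h2 (by positivity)
          _ = C * (d : ℝ) ^ (-τ) := by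
              rw [mul_assoc, ← Real.rpow_add hd0]
              congr 2
              rw [hτ]
              ring
          _ = _ := by rw [h3]
    _ = C * ∑ x ∈ s'.image (fun d : ℕ => (c d, a d)),
          (x.1 : ℝ) ^ (-(2 * τ)) * (x.2 : ℝ) ^ (-(3 * τ)) := by
        rw [Finset.sum_image hinj, Finset.mul_sum]
    _ ≤ _ := mul_le_mul_of_nonneg_left
        (hs.sum_le_tsum _ fun x _ => by positivity) hC0.le

/-- the convolution of two multiplicative functions bounded by `1` with opposite values at the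
primes -/
theorem half_of_pair (u v : ArithmeticFunction ℝ) (hu : u.IsMultiplicative)
    (hv : v.IsMultiplicative) (hub : ∀ p k : ℕ, p.Prime → |u (p ^ k)| ≤ 1)
    (hvb : ∀ p k : ℕ, p.Prime → |v (p ^ k)| ≤ 1) (huv : ∀ p : ℕ, p.Prime → u p + v p = 0) :
    Half (u * v) := by
  apply half_of_mult _ (hu.mul hv)
  · intro p hp
    rw [ArithmeticFunction.mul_apply, Nat.sum_divisorsAntidiagonal (fun i j => u i * v j),
      hp.sum_divisors]
    rw [Nat.div_self hp.pos, Nat.div_one, hv.1, hu.1, mul_one, one_mul]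
    exact huv p hp
  · intro p k hp
    rw [ArithmeticFunction.mul_apply, Nat.sum_divisorsAntidiagonal (fun i j => u i * v j),
      Nat.sum_divisors_prime_pow hp]
    calc |∑ i ∈ Finset.range (k + 1), u (p ^ i) * v (p ^ k / p ^ i)| ≤
          ∑ i ∈ Finset.range (k + 1), |u (p ^ i) * v (p ^ k / p ^ i)| :=
          Finset.abs_sum_le_sum_abs _ _
      _ ≤ ∑ i ∈ Finset.range (k + 1), (1 : ℝ) := by
          apply Finset.sum_le_sum
          intro i hi
          rw [Finset.mem_range] at hi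
          rw [Nat.pow_div (by omega) hp.pos, abs_mul]
          calc |u (p ^ i)| * |v (p ^ (k - i))| ≤ 1 * 1 :=
                mul_le_mul (hub p i hp) (hvb p _ hp) (abs_nonneg _) zero_le_one
            _ = 1 := one_mul 1
      _ = k + 1 := by simp

theorem lam_mult : lam.IsMultiplicative := ⟨lam_one, fun {m n} _ => lam_mul m n⟩

theorem mu_prime {p : ℕ} (hp : p.Prime) : mu p = -1 := by
  rw [mu_apply, ArithmeticFunction.moebius_apply_prime hp]
  simp

theorem lam_prime {p : ℕ} (hp : p.Prime) : lam p = -1 := by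
  rw [lam_apply, if_neg hp.ne_zero, ArithmeticFunction.cardFactors_apply_prime hp, pow_one]

theorem zetaR_mult : ((ArithmeticFunction.zeta : ArithmeticFunction ℕ) :
    ArithmeticFunction ℝ).IsMultiplicative := ArithmeticFunction.isMultiplicative_zeta.natCast

theorem zetaR_le (n : ℕ) : |((ArithmeticFunction.zeta : ArithmeticFunction ℕ) :
    ArithmeticFunction ℝ) n| ≤ 1 := by
  rw [ArithmeticFunction.natCoe_apply]
  by_cases h : n = 0
  · simp [h]
  · rw [ArithmeticFunction.zeta_apply_ne h]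
    simp

theorem zetaR_prime {p : ℕ} (hp : p.Prime) : ((ArithmeticFunction.zeta : ArithmeticFunction ℕ) :
    ArithmeticFunction ℝ) p = 1 := by
  rw [ArithmeticFunction.natCoe_apply, ArithmeticFunction.zeta_apply_ne hp.ne_zero]
  simp

/-- from `μ` to the multiplicative functions with value `-1` at the primes -/
theorem of_mu {θ : ℝ} (hθ : 1 / 2 ≤ θ) (h : SupBound mu θ) (f : ArithmeticFunction ℝ)
    (hf : f.IsMultiplicative) (hfp : ∀ p : ℕ, p.Prime → f p = -1)
    (hfb : ∀ p k : ℕ, p.Prime → |f (p ^ k)| ≤ 1) : SupBound f θ := by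
  have h1 := half_of_pair f _ hf zetaR_mult hfb (fun p k _ => zetaR_le _) (fun p hp => by
    rw [hfp p hp, zetaR_prime hp]
    norm_num)
  have h2 := supBound_mul h1 hθ h
  rwa [mul_assoc, zeta_mul_mu, mul_one] at h2

theorem mu_of_lam {θ : ℝ} (hθ : 1 / 2 ≤ θ) (h : SupBound lam θ) : SupBound mu θ := by
  have hm : (mu.pmul lam).IsMultiplicative := mu_mult.pmul lam_mult
  have h1 := half_of_pair mu (mu.pmul lam) mu_mult hm (fun p k _ => abs_mu_le _) (fun p k _ => by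
    rw [ArithmeticFunction.pmul_apply, abs_mul]
    calc |mu (p ^ k)| * |lam (p ^ k)| ≤ 1 * 1 :=
          mul_le_mul (abs_mu_le _) (abs_lam_le _) (abs_nonneg _) zero_le_one
      _ = 1 := one_mul 1) (fun p hp => by
    rw [ArithmeticFunction.pmul_apply, mu_prime hp, lam_prime hp]
    norm_num)
  have h2 := supBound_mul h1 hθ h
  have h3 : mu.pmul lam * lam = 1 := by
    have h4 := pmul_mul lam lam_mul mu
      ((ArithmeticFunction.zeta : ArithmeticFunction ℕ) : ArithmeticFunction ℝ)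
    rw [zeta_pmul_lam, mul_comm mu, zeta_mul_mu, one_pmul_lam] at h4
    exact h4
  rwa [mul_assoc, h3, mul_one] at h2

/-! ### Sets of primes -/

/-- `n ↦ n^(-σ)` -/
noncomputable def rsg (σ : ℝ) (hσ : σ ≠ 0) : ℕ →*₀ ℝ where
  toFun n := (n : ℝ) ^ (-σ)
  map_zero' := by
    simp only [Nat.cast_zero]
    exact Real.zero_rpow (neg_ne_zero.2 hσ)
  map_one' := by simp
  map_mul' m n := by
    push_cast
    exact Real.mul_rpow (Nat.cast_nonneg _) (Nat.cast_nonneg _)

theorem half_ind (P : Set ℕ)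
    (hs : ∀ σ : ℝ, 1 / 2 < σ → Summable fun p : P => ((p : ℕ) : ℝ) ^ (-σ)) : Half (ind P) := by
  classical
  intro ρ hρ
  have hρ0 : ρ ≠ 0 := by linarith
  have hrs : ∀ n : ℕ, rsg ρ hρ0 n = (n : ℝ) ^ (-ρ) := fun n => rfl
  have hrs0 : ∀ n : ℕ, 0 ≤ rsg ρ hρ0 n := fun n => by
    rw [hrs]
    positivity
  have hrsp : ∀ p : ℕ, p.Prime → rsg ρ hρ0 p ≤ 3 / 4 := by
    intro p hp
    have h1 : rsg ρ hρ0 p ≤ rs p := by
      rw [hrs, rs_apply]
      apply Real.rpow_le_rpow_of_exponent_le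
      · exact_mod_cast hp.one_lt.le
      · linarith
    exact h1.trans (rs_prime_le hp)
  set σ : ℝ := ∑' p : P, ((p : ℕ) : ℝ) ^ (-ρ) with hσ
  apply summable_of_sum_le (c := Real.exp (4 * σ)) (fun d => by positivity)
  intro s
  set T : Finset ℕ := (Finset.range (s.sup id + 1)).filter (fun p => p ∈ P) with hT
  have hgeo := EulerProduct.summable_and_hasSum_factoredNumbers_prod_filter_prime_geometric
    (f := (rsg ρ hρ0 : ℕ →* ℝ)) (fun {p} hp => by
      change ‖rsg ρ hρ0 p‖ < 1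
      rw [Real.norm_of_nonneg (hrs0 p)]
      have := hrsp p hp
      linarith) T
  have hsum : Summable (fun m : Nat.factoredNumbers T => rsg ρ hρ0 m) := hgeo.2.summable
  have hind : Summable ((Nat.factoredNumbers T).indicator fun m : ℕ => rsg ρ hρ0 m) :=
    summable_subtype_iff_indicator.1 hsum
  have h1 : ∑ d ∈ s, |ind P d| * (d : ℝ) ^ (-ρ) ≤
      ∑ d ∈ s, (Nat.factoredNumbers T).indicator (fun m : ℕ => rsg ρ hρ0 m) d := by
    apply Finset.sum_le_sum
    intro d hd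
    rw [abs_of_nonneg (ind_nonneg P d), ← hrs]
    by_cases hdP : d ≠ 0 ∧ ∀ p, p.Prime → p ∣ d → p ∈ P
    · rw [Set.indicator_of_mem, ind_apply, if_pos hdP, one_mul]
      rw [Nat.mem_factoredNumbers]
      refine ⟨hdP.1, fun p hp => ?_⟩
      rw [Nat.mem_primeFactorsList hdP.1] at hp
      rw [hT, Finset.mem_filter, Finset.mem_range]
      refine ⟨?_, hdP.2 p hp.1 hp.2⟩
      have h2 := Nat.le_of_dvd (Nat.pos_of_ne_zero hdP.1) hp.2
      have h3 : d ≤ s.sup id := Finset.le_sup (f := id) hd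
      omega
    · rw [ind_apply, if_neg hdP, zero_mul]
      exact Set.indicator_nonneg (fun m _ => hrs0 m) d
  have h2 : ∑ d ∈ s, (Nat.factoredNumbers T).indicator (fun m : ℕ => rsg ρ hρ0 m) d ≤
      ∑' d, (Nat.factoredNumbers T).indicator (fun m : ℕ => rsg ρ hρ0 m) d :=
    hind.sum_le_tsum s fun d _ => Set.indicator_nonneg (fun m _ => hrs0 m) d
  have h3 : ∑' d, (Nat.factoredNumbers T).indicator (fun m : ℕ => rsg ρ hρ0 m) d =
      ∏ p ∈ T with p.Prime, (1 - rsg ρ hρ0 p)⁻¹ := by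
    rw [← _root_.tsum_subtype]
    exact hgeo.2.tsum_eq
  have h4 : ∏ p ∈ T with p.Prime, (1 - rsg ρ hρ0 p)⁻¹ ≤
      ∏ p ∈ T with p.Prime, Real.exp (4 * rsg ρ hρ0 p) := by
    apply Finset.prod_le_prod
    · intro p hp
      rw [Finset.mem_filter] at hp
      have := hrsp p hp.2
      have : 0 < 1 - rsg ρ hρ0 p := by linarith
      positivity
    · intro p hp
      rw [Finset.mem_filter] at hp
      have h5 := hrsp p hp.2
      have h6 := hrs0 p
      have h7 : 0 < 1 - rsg ρ hρ0 p := by linarith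
      rw [inv_le_iff_one_le_mul₀ h7]
      have h8 : 1 + 4 * rsg ρ hρ0 p ≤ Real.exp (4 * rsg ρ hρ0 p) := by
        have := Real.add_one_le_exp (4 * rsg ρ hρ0 p)
        linarith
      have h9 : 1 ≤ (1 - rsg ρ hρ0 p) * (1 + 4 * rsg ρ hρ0 p) := by nlinarith
      have h10 : (1 - rsg ρ hρ0 p) * (1 + 4 * rsg ρ hρ0 p) ≤
          (1 - rsg ρ hρ0 p) * Real.exp (4 * rsg ρ hρ0 p) :=
        mul_le_mul_of_nonneg_left h8 h7.le
      nlinarith
  have h5 : ∏ p ∈ T with p.Prime, Real.exp (4 * rsg ρ hρ0 p) ≤ Real.exp (4 * σ) := by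
    rw [← Real.exp_sum, ← Finset.mul_sum]
    apply Real.exp_le_exp.2
    apply mul_le_mul_of_nonneg_left _ (by norm_num)
    have hsub : ∀ p ∈ T.filter Nat.Prime, p ∈ P := fun p hp =>
      (Finset.mem_filter.1 (Finset.mem_filter.1 hp).1).2
    calc ∑ p ∈ T.filter Nat.Prime, rsg ρ hρ0 p =
          ∑ p ∈ (T.filter Nat.Prime).subtype (fun p => p ∈ P), rsg ρ hρ0 (p : ℕ) := by
          rw [Finset.sum_subtype_of_mem (fun p => rsg ρ hρ0 p) hsub]
      _ ≤ σ := by
          rw [hσ]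
          exact (hs ρ hρ).sum_le_tsum _ fun p _ => hrs0 (p : ℕ)
  linarith

theorem half_pmul (P : Set ℕ) (h : Half (ind P)) : Half ((ind P).pmul mu) := by
  intro σ hσ
  refine Summable.of_nonneg_of_le (fun d => by positivity) (fun d => ?_) (h σ hσ)
  apply mul_le_mul_of_nonneg_right _ (by positivity)
  rw [ArithmeticFunction.pmul_apply, abs_mul]
  calc |ind P d| * |mu d| ≤ |ind P d| * 1 :=
        mul_le_mul_of_nonneg_left (abs_mu_le d) (abs_nonneg _)
    _ = _ := mul_one _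

theorem expo_main (θ : ℝ) (hθ : 1 / 2 ≤ θ) :
    (∀ g g' : ArithmeticFunction ℝ, g * g' = 1 → Half g → Half g' →
      (SupBound mu θ ↔ SupBound (g * mu) θ)) ∧
    (∀ f : ArithmeticFunction ℝ, f.IsMultiplicative → (∀ p : ℕ, p.Prime → f p = -1) →
      (∀ p k : ℕ, p.Prime → |f (p ^ k)| ≤ 1) → SupBound mu θ → SupBound f θ) ∧
    (SupBound mu θ ↔ SupBound lam θ) ∧
    (∀ P : Set ℕ, (∀ p ∈ P, p.Prime) →
      (∀ σ : ℝ, 1 / 2 < σ → Summable fun p : P => ((p : ℕ) : ℝ) ^ (-σ)) →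
      (SupBound mu θ ↔ SupBound (muP P) θ)) := by
  have hgen : ∀ g g' : ArithmeticFunction ℝ, g * g' = 1 → Half g → Half g' →
      (SupBound mu θ ↔ SupBound (g * mu) θ) := by
    intro g g' h hg hg'
    refine ⟨supBound_mul hg hθ, fun h1 => ?_⟩
    have h2 := supBound_mul hg' hθ h1
    rwa [← mul_assoc, mul_comm g' g, h, one_mul] at h2
  refine ⟨hgen, fun f hf hfp hfb h => of_mu hθ h f hf hfp hfb, ⟨fun h => ?_, mu_of_lam hθ⟩,
    fun P hP hs => ?_⟩
  · exact of_mu hθ h lam lam_mult (fun p hp => lam_prime hp) (fun p k _ => abs_lam_le _)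
  · have h1 := half_ind P hs
    have h2 := hgen (ind P) ((ind P).pmul mu) (ind_mul_pmul P) h1 (half_pmul P h1)
    rwa [ind_mul_mu P hP] at h2

end Pool.Agent.X159.WM
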