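import Pool.Agent.X159.WM.Core

/-!
The Möbius function on the integers without prime factors in a set `P`.
-/

set_option autoImplicit false

open Finset ArithmeticFunction

namespace Pool.Agent.X159.WM

/-- the Möbius function -/
noncomputable def mu : ArithmeticFunction ℝ := ((ArithmeticFunction.moebius : ArithmeticFunction ℤ) : ArithmeticFunction ℝ)

theorem mu_apply (n : ℕ) : mu n = ((ArithmeticFunction.moebius n : ℤ) : ℝ) := rfl

theorem mu_mult : mu.IsMultiplicative := ArithmeticFunction.isMultiplicative_moebius.intCast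

theorem abs_mu_le (n : ℕ) : |mu n| ≤ 1 := by
  rw [mu_apply]
  have := ArithmeticFunction.abs_moebius_le_one (n := n)
  exact_mod_cast this

theorem zeta_mul_mu : ((ArithmeticFunction.zeta : ArithmeticFunction ℕ) : ArithmeticFunction ℝ) * mu = 1 :=
  ArithmeticFunction.coe_zeta_mul_coe_moebius

open scoped Classical in
/-- the indicator of the integers composed of primes of `P` -/
noncomputable def ind (P : Set ℕ) : ArithmeticFunction ℝ :=
  ⟨fun n => if n ≠ 0 ∧ ∀ p, p.Prime → p ∣ n → p ∈ P then 1 else 0, by simp⟩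

open scoped Classical in
theorem ind_apply (P : Set ℕ) (n : ℕ) :
    ind P n = if n ≠ 0 ∧ ∀ p, p.Prime → p ∣ n → p ∈ P then 1 else 0 := rfl

open scoped Classical in
/-- `μ(n)` if `n` has no prime factor in `P`, otherwise `0` -/
noncomputable def muP (P : Set ℕ) : ArithmeticFunction ℝ :=
  ⟨fun n => if ∀ p ∈ P, ¬ p ∣ n then mu n else 0, by simp⟩

open scoped Classical in
theorem muP_apply (P : Set ℕ) (n : ℕ) : muP P n = if ∀ p ∈ P, ¬ p ∣ n then mu n else 0 := rfl

theorem ind_mul (P : Set ℕ) (m n : ℕ) : ind P (m * n) = ind P m * ind P n := by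
  classical
  rw [ind_apply, ind_apply, ind_apply]
  have h : (m * n ≠ 0 ∧ ∀ p, p.Prime → p ∣ m * n → p ∈ P) ↔
      (m ≠ 0 ∧ ∀ p, p.Prime → p ∣ m → p ∈ P) ∧ (n ≠ 0 ∧ ∀ p, p.Prime → p ∣ n → p ∈ P) := by
    constructor
    · rintro ⟨h1, h2⟩
      rw [mul_ne_zero_iff] at h1
      exact ⟨⟨h1.1, fun p hp hd => h2 p hp (hd.mul_right n)⟩,
        ⟨h1.2, fun p hp hd => h2 p hp (hd.mul_left m)⟩⟩
    · rintro ⟨⟨h1, h2⟩, ⟨h3, h4⟩⟩
      refine ⟨mul_ne_zero h1 h3, fun p hp hd => ?_⟩
      rcases (hp.dvd_mul).1 hd with hd | hd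
      · exact h2 p hp hd
      · exact h4 p hp hd
  by_cases h1 : (m ≠ 0 ∧ ∀ p, p.Prime → p ∣ m → p ∈ P)
  · by_cases h2 : (n ≠ 0 ∧ ∀ p, p.Prime → p ∣ n → p ∈ P)
    · rw [if_pos (h.2 ⟨h1, h2⟩), if_pos h1, if_pos h2, one_mul]
    · rw [if_neg (fun hh => h2 (h.1 hh).2), if_neg h2, mul_zero]
  · rw [if_neg (fun hh => h1 (h.1 hh).1), if_neg h1, zero_mul]

theorem ind_one (P : Set ℕ) : ind P 1 = 1 := by
  classical
  rw [ind_apply, if_pos]
  refine ⟨one_ne_zero, fun p hp hd => ?_⟩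
  exact absurd (Nat.dvd_one.1 hd) hp.one_lt.ne'

theorem ind_nonneg (P : Set ℕ) (n : ℕ) : 0 ≤ ind P n := by
  classical
  rw [ind_apply]
  split_ifs <;> norm_num

theorem ind_le (P : Set ℕ) (n : ℕ) : ind P n ≤ 1 := by
  classical
  rw [ind_apply]
  split_ifs <;> norm_num

theorem ind_mult (P : Set ℕ) : (ind P).IsMultiplicative :=
  ⟨ind_one P, fun {m n} _ => ind_mul P m n⟩

theorem muP_mult (P : Set ℕ) (hP : ∀ p ∈ P, p.Prime) : (muP P).IsMultiplicative := by
  classical
  refine ⟨?_, ?_⟩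
  · rw [muP_apply, if_pos, mu_mult.1]
    intro p hp hd
    exact (hP p hp).one_lt.ne' (Nat.dvd_one.1 hd)
  · intro m n hmn
    rw [muP_apply, muP_apply, muP_apply]
    have h : (∀ p ∈ P, ¬ p ∣ m * n) ↔ (∀ p ∈ P, ¬ p ∣ m) ∧ (∀ p ∈ P, ¬ p ∣ n) := by
      constructor
      · intro h
        exact ⟨fun p hp hd => h p hp (hd.mul_right n), fun p hp hd => h p hp (hd.mul_left m)⟩
      · rintro ⟨h1, h2⟩ p hp hd
        rcases ((hP p hp).dvd_mul).1 hd with hd | hd
        · exact h1 p hp hd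
        · exact h2 p hp hd
    by_cases h1 : ∀ p ∈ P, ¬ p ∣ m
    · by_cases h2 : ∀ p ∈ P, ¬ p ∣ n
      · rw [if_pos (h.2 ⟨h1, h2⟩), if_pos h1, if_pos h2, mu_mult.2 hmn]
      · rw [if_neg (fun hh => h2 (h.1 hh).2), if_neg h2, mul_zero]
    · rw [if_neg (fun hh => h1 (h.1 hh).1), if_neg h1, zero_mul]

theorem ind_mul_pmul (P : Set ℕ) : ind P * (ind P).pmul mu = 1 := by
  ext n
  rw [ArithmeticFunction.mul_apply]
  have h1 : ∀ x ∈ n.divisorsAntidiagonal, ind P x.1 * (ind P).pmul mu x.2 = ind P n * mu x.2 := by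
    intro x hx
    rw [Nat.mem_divisorsAntidiagonal] at hx
    rw [ArithmeticFunction.pmul_apply, ← mul_assoc, ← ind_mul, hx.1]
  rw [Finset.sum_congr rfl h1, ← Finset.mul_sum]
  have h2 : ∑ x ∈ n.divisorsAntidiagonal, mu x.2 = (1 : ArithmeticFunction ℝ) n := by
    rw [← zeta_mul_mu, ArithmeticFunction.mul_apply]
    apply Finset.sum_congr rfl
    intro x hx
    rw [Nat.mem_divisorsAntidiagonal] at hx
    have : x.1 ≠ 0 := by
      intro h0
      rw [h0, zero_mul] at hx
      exact hx.2 hx.1.symm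
    rw [ArithmeticFunction.natCoe_apply, ArithmeticFunction.zeta_apply_ne this]
    simp
  rw [h2]
  by_cases hn : n = 1
  · rw [hn, ind_one, one_mul]
  · rw [ArithmeticFunction.one_apply_ne hn, mul_zero]

theorem ind_mul_mu (P : Set ℕ) (hP : ∀ p ∈ P, p.Prime) : ind P * mu = muP P := by
  classical
  rw [((ind_mult P).mul mu_mult).eq_iff_eq_on_prime_powers _ _ (muP_mult P hP)]
  intro p i hp
  rcases Nat.eq_zero_or_pos i with rfl | hi
  · rw [pow_zero, ((ind_mult P).mul mu_mult).1, (muP_mult P hP).1]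
  have hpi : p ∣ p ^ i := dvd_pow_self p hi.ne'
  by_cases hpP : p ∈ P
  · rw [muP_apply, if_neg (fun h => h p hpP hpi)]
    have h1 : (ind P * mu) (p ^ i) =
        (((ArithmeticFunction.zeta : ArithmeticFunction ℕ) : ArithmeticFunction ℝ) * mu) (p ^ i) := by
      rw [ArithmeticFunction.mul_apply, ArithmeticFunction.mul_apply]
      apply Finset.sum_congr rfl
      intro x hx
      rw [Nat.mem_divisorsAntidiagonal] at hx
      have h0 : x.1 ≠ 0 := by
        intro h0
        rw [h0, zero_mul] at hx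
        exact hx.2 hx.1.symm
      rw [ArithmeticFunction.natCoe_apply, ArithmeticFunction.zeta_apply_ne h0, ind_apply, if_pos]
      · simp
      · refine ⟨h0, fun r hr hd => ?_⟩
        have h2 : r ∣ p ^ i := hd.trans ⟨x.2, hx.1.symm⟩
        rw [(Nat.prime_dvd_prime_iff_eq hr hp).1 (hr.dvd_of_dvd_pow h2)]
        exact hpP
    rw [h1, zeta_mul_mu, ArithmeticFunction.one_apply_ne]
    have := Nat.one_lt_pow hi.ne' hp.one_lt
    exact this.ne'
  · rw [ArithmeticFunction.mul_apply, Finset.sum_eq_single (1, p ^ i)]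
    · rw [ind_one, one_mul, muP_apply, if_pos]
      intro r hr hd
      have := (Nat.prime_dvd_prime_iff_eq (hP r hr) hp).1 ((hP r hr).dvd_of_dvd_pow hd)
      rw [this] at hr
      exact hpP hr
    · intro x hx hne
      rw [Nat.mem_divisorsAntidiagonal] at hx
      have hx1 : x.1 ≠ 1 := by
        intro h1
        apply hne
        rw [h1, one_mul] at hx
        exact Prod.ext h1 hx.1
      have hxd : x.1 ∣ p ^ i := ⟨x.2, hx.1.symm⟩
      obtain ⟨j, hj, hxj⟩ := (Nat.dvd_prime_pow hp).1 hxd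
      have hj0 : j ≠ 0 := by
        rintro rfl
        exact hx1 (by rw [hxj, pow_zero])
      rw [ind_apply, if_neg, zero_mul]
      rintro ⟨-, h⟩
      exact hpP (h p hp (by rw [hxj]; exact dvd_pow_self p hj0))
    · intro h
      exfalso
      apply h
      rw [Nat.mem_divisorsAntidiagonal]
      exact ⟨one_mul _, (Nat.pow_pos hp.pos).ne'⟩

/-- `n ↦ n^(-1/2)` -/
noncomputable def rs : ℕ →*₀ ℝ where
  toFun n := (n : ℝ) ^ (-(1 / 2 : ℝ))
  map_zero' := by
    simp only [Nat.cast_zero]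
    exact Real.zero_rpow (by norm_num)
  map_one' := by simp
  map_mul' m n := by
    push_cast
    exact Real.mul_rpow (Nat.cast_nonneg _) (Nat.cast_nonneg _)

theorem rs_apply (n : ℕ) : rs n = (n : ℝ) ^ (-(1 / 2 : ℝ)) := rfl

theorem rs_nonneg (n : ℕ) : 0 ≤ rs n := by
  rw [rs_apply]
  positivity

theorem rs_prime_le {p : ℕ} (hp : p.Prime) : rs p ≤ 3 / 4 := by
  rw [rs_apply, Real.rpow_neg (Nat.cast_nonneg _), ← Real.sqrt_eq_rpow]
  have h2 : (2 : ℝ) ≤ p := by exact_mod_cast hp.two_le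
  have h3 : (4 / 3 : ℝ) ≤ Real.sqrt p := by
    apply Real.le_sqrt_of_sq_le
    norm_num
    linarith
  calc (Real.sqrt p)⁻¹ ≤ (4 / 3 : ℝ)⁻¹ := by
        apply inv_anti₀ (by norm_num) h3
    _ = 3 / 4 := by norm_num

theorem wiener_ind (P : Set ℕ) (hP : ∀ p ∈ P, p.Prime)
    (hs : Summable fun p : P => ((p : ℕ) : ℝ) ^ (-(1 / 2 : ℝ))) : Wiener (ind P) := by
  classical
  unfold Wiener
  set σ : ℝ := ∑' p : P, ((p : ℕ) : ℝ) ^ (-(1 / 2 : ℝ)) with hσ
  apply summable_of_sum_le (c := Real.exp (4 * σ)) (fun d => by positivity)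
  intro s
  set T : Finset ℕ := (Finset.range (s.sup id + 1)).filter (fun p => p ∈ P) with hT
  have hgeo := EulerProduct.summable_and_hasSum_factoredNumbers_prod_filter_prime_geometric
    (f := (rs : ℕ →* ℝ)) (fun {p} hp => by
      change ‖rs p‖ < 1
      rw [Real.norm_of_nonneg (rs_nonneg p)]
      have := rs_prime_le hp
      linarith) T
  have hsum : Summable (fun m : Nat.factoredNumbers T => rs m) := hgeo.2.summable
  have hind : Summable ((Nat.factoredNumbers T).indicator fun m : ℕ => rs m) :=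
    summable_subtype_iff_indicator.1 hsum
  have h1 : ∑ d ∈ s, |ind P d| * (d : ℝ) ^ (-(1 / 2 : ℝ)) ≤
      ∑ d ∈ s, (Nat.factoredNumbers T).indicator (fun m : ℕ => rs m) d := by
    apply Finset.sum_le_sum
    intro d hd
    rw [abs_of_nonneg (ind_nonneg P d), ← rs_apply]
    by_cases hdP : d ≠ 0 ∧ ∀ p, p.Prime → p ∣ d → p ∈ P
    · rw [Set.indicator_of_mem, ind_apply, if_pos hdP, one_mul]
      rw [Nat.mem_factoredNumbers]
      refine ⟨hdP.1, fun p hp => ?_⟩
      rw [Nat.mem_primeFactorsList hdP.1] at hp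
      rw [hT, Finset.mem_filter, Finset.mem_range]
      refine ⟨?_, hdP.2 p hp.1 hp.2⟩
      have h2 := Nat.le_of_dvd (Nat.pos_of_ne_zero hdP.1) hp.2
      have h3 : d ≤ s.sup id := Finset.le_sup (f := id) hd
      omega
    · rw [ind_apply, if_neg hdP, zero_mul]
      exact Set.indicator_nonneg (fun m _ => rs_nonneg m) d
  have h2 : ∑ d ∈ s, (Nat.factoredNumbers T).indicator (fun m : ℕ => rs m) d ≤
      ∑' d, (Nat.factoredNumbers T).indicator (fun m : ℕ => rs m) d :=
    hind.sum_le_tsum s fun d _ => Set.indicator_nonneg (fun m _ => rs_nonneg m) d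
  have h3 : ∑' d, (Nat.factoredNumbers T).indicator (fun m : ℕ => rs m) d =
      ∏ p ∈ T with p.Prime, (1 - rs p)⁻¹ := by
    rw [← _root_.tsum_subtype]
    exact hgeo.2.tsum_eq
  have h4 : ∏ p ∈ T with p.Prime, (1 - rs p)⁻¹ ≤ ∏ p ∈ T with p.Prime, Real.exp (4 * rs p) := by
    apply Finset.prod_le_prod
    · intro p hp
      rw [Finset.mem_filter] at hp
      have := rs_prime_le hp.2
      have : 0 < 1 - rs p := by linarith
      positivity
    · intro p hp
      rw [Finset.mem_filter] at hp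
      have h5 := rs_prime_le hp.2
      have h6 := rs_nonneg p
      have h7 : 0 < 1 - rs p := by linarith
      rw [inv_le_iff_one_le_mul₀ h7]
      have h8 : 1 + 4 * rs p ≤ Real.exp (4 * rs p) := by
        have := Real.add_one_le_exp (4 * rs p)
        linarith
      have h9 : 1 ≤ (1 - rs p) * (1 + 4 * rs p) := by nlinarith
      have h10 : (1 - rs p) * (1 + 4 * rs p) ≤ (1 - rs p) * Real.exp (4 * rs p) :=
        mul_le_mul_of_nonneg_left h8 h7.le
      nlinarith
  have h5 : ∏ p ∈ T with p.Prime, Real.exp (4 * rs p) ≤ Real.exp (4 * σ) := by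
    rw [← Real.exp_sum, ← Finset.mul_sum]
    apply Real.exp_le_exp.2
    apply mul_le_mul_of_nonneg_left _ (by norm_num)
    have hsub : ∀ p ∈ T.filter Nat.Prime, p ∈ P := fun p hp =>
      (Finset.mem_filter.1 (Finset.mem_filter.1 hp).1).2
    calc ∑ p ∈ T.filter Nat.Prime, rs p =
          ∑ p ∈ (T.filter Nat.Prime).subtype (fun p => p ∈ P), rs (p : ℕ) := by
          rw [Finset.sum_subtype_of_mem (fun p => rs p) hsub]
      _ ≤ σ := by
          rw [hσ]
          exact hs.sum_le_tsum _ fun p _ => rs_nonneg (p : ℕ)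
  linarith

theorem wiener_pmul (P : Set ℕ) (h : Wiener (ind P)) : Wiener ((ind P).pmul mu) := by
  refine Summable.of_nonneg_of_le (fun d => by positivity) (fun d => ?_) h
  apply mul_le_mul_of_nonneg_right _ (by positivity)
  rw [ArithmeticFunction.pmul_apply, abs_mul]
  calc |ind P d| * |mu d| ≤ |ind P d| * 1 :=
        mul_le_mul_of_nonneg_left (abs_mu_le d) (abs_nonneg _)
    _ = _ := mul_one _

end Pool.Agent.X159.WM
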