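import Mathlib

/-!
Summatory functions and Dirichlet convolution: mean squares.
-/

set_option autoImplicit false

open Finset ArithmeticFunction MeasureTheory Set

namespace Pool.Agent.X159.WM

/-- `∑_{n ≤ u} a(n)` -/
noncomputable def S (a : ArithmeticFunction ℝ) (u : ℝ) : ℝ := ∑ n ∈ Finset.Icc 1 ⌊u⌋₊, a n

/-- `∫_1^x (S(u)/u)² du` -/
noncomputable def msq (a : ArithmeticFunction ℝ) (x : ℝ) : ℝ :=
  ∫ u in (1 : ℝ)..x, (S a u / u) ^ 2

/-- `∑ |g(d)| d^(-1/2)` converges -/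
def Wiener (g : ArithmeticFunction ℝ) : Prop :=
  Summable fun d : ℕ => |g d| * (d : ℝ) ^ (-(1 / 2 : ℝ))

/-- its sum -/
noncomputable def wnorm (g : ArithmeticFunction ℝ) : ℝ :=
  ∑' d : ℕ, |g d| * (d : ℝ) ^ (-(1 / 2 : ℝ))

theorem sum_divisors_swap (K : ℕ) (F : ℕ → ℕ → ℝ) :
    ∑ n ∈ Finset.Icc 1 K, ∑ x ∈ n.divisorsAntidiagonal, F x.1 x.2 =
      ∑ d ∈ Finset.Icc 1 K, ∑ m ∈ Finset.Icc 1 (K / d), F d m := by
  rw [Finset.sum_sigma', Finset.sum_sigma']
  refine Finset.sum_bij' (fun x _ => ⟨x.2.1, x.2.2⟩) (fun x _ => ⟨x.1 * x.2, (x.1, x.2)⟩)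
    ?_ ?_ ?_ ?_ ?_
  · rintro ⟨n, d, m⟩ h
    simp only [Finset.mem_sigma, Finset.mem_Icc, Nat.mem_divisorsAntidiagonal] at h ⊢
    obtain ⟨⟨h1, h2⟩, h3, h4⟩ := h
    have hd : d ≠ 0 := by rintro rfl; simp at h3; omega
    have hm : m ≠ 0 := by rintro rfl; simp at h3; omega
    refine ⟨⟨Nat.pos_of_ne_zero hd, ?_⟩, Nat.pos_of_ne_zero hm, ?_⟩
    · calc d ≤ d * m := Nat.le_mul_of_pos_right _ (Nat.pos_of_ne_zero hm)
        _ ≤ K := by omega
    · rw [Nat.le_div_iff_mul_le (Nat.pos_of_ne_zero hd), mul_comm]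
      omega
  · rintro ⟨d, m⟩ h
    simp only [Finset.mem_sigma, Finset.mem_Icc, Nat.mem_divisorsAntidiagonal] at h ⊢
    obtain ⟨⟨h1, h2⟩, h3, h4⟩ := h
    rw [Nat.le_div_iff_mul_le (by omega), mul_comm] at h4
    exact ⟨⟨Nat.mul_pos h1 h3, h4⟩, trivial, (Nat.mul_pos h1 h3).ne'⟩
  · rintro ⟨n, d, m⟩ h
    simp only [Finset.mem_sigma, Finset.mem_Icc, Nat.mem_divisorsAntidiagonal] at h
    obtain ⟨-, h3, -⟩ := h
    subst h3
    rfl
  · rintro ⟨d, m⟩ _
    rfl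
  · rintro ⟨n, d, m⟩ _
    rfl

theorem S_mul (g a : ArithmeticFunction ℝ) (u : ℝ) :
    S (g * a) u = ∑ d ∈ Finset.Icc 1 ⌊u⌋₊, g d * S a (u / d) := by
  unfold S
  simp only [ArithmeticFunction.mul_apply]
  rw [sum_divisors_swap ⌊u⌋₊ (fun d m => g d * a m)]
  apply Finset.sum_congr rfl
  intro d _
  rw [Finset.mul_sum, Nat.floor_div_natCast]

theorem S_of_lt_one (a : ArithmeticFunction ℝ) {u : ℝ} (hu : u < 1) : S a u = 0 := by
  unfold S
  rw [Nat.floor_eq_zero.2 hu]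
  simp

theorem measurable_S (a : ArithmeticFunction ℝ) : Measurable (S a) := by
  unfold S
  exact (measurable_of_countable (fun n : ℕ => ∑ k ∈ Finset.Icc 1 n, a k)).comp Nat.measurable_floor

theorem abs_S_le (a : ArithmeticFunction ℝ) {u X : ℝ} (h : u ≤ X) :
    |S a u| ≤ ∑ n ∈ Finset.Icc 1 ⌊X⌋₊, |a n| := by
  unfold S
  calc |∑ n ∈ Finset.Icc 1 ⌊u⌋₊, a n| ≤ ∑ n ∈ Finset.Icc 1 ⌊u⌋₊, |a n| := Finset.abs_sum_le_sum_abs _ _
    _ ≤ _ := Finset.sum_le_sum_of_subset_of_nonneg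
        (Finset.Icc_subset_Icc le_rfl (Nat.floor_le_floor h)) fun _ _ _ => abs_nonneg _

theorem intervalIntegrable_of_bounded {f : ℝ → ℝ} (hf : Measurable f) (a b C : ℝ)
    (h : ∀ x ∈ Set.uIoc a b, |f x| ≤ C) : IntervalIntegrable f volume a b := by
  rw [intervalIntegrable_iff]
  apply MeasureTheory.Measure.integrableOn_of_bounded (M := C)
  · rw [Set.uIoc]
    exact measure_Ioc_lt_top.ne
  · exact hf.aestronglyMeasurable
  · rw [ae_restrict_iff' measurableSet_uIoc]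
    exact Filter.Eventually.of_forall fun x hx => h x hx

theorem integrable_sq (a : ArithmeticFunction ℝ) {α β : ℝ} (hα : 0 < α) (hαβ : α ≤ β) :
    IntervalIntegrable (fun u => (S a u / u) ^ 2) volume α β := by
  apply intervalIntegrable_of_bounded (((measurable_S a).div measurable_id).pow_const 2) α β
    ((∑ n ∈ Finset.Icc 1 ⌊β⌋₊, |a n|) ^ 2 / α ^ 2)
  intro u hu
  rw [Set.uIoc_of_le hαβ] at hu
  have hu0 : 0 < u := lt_trans hα hu.1
  change |(S a u / u) ^ 2| ≤ _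
  rw [abs_of_nonneg (sq_nonneg _), div_pow]
  have h1 : (S a u) ^ 2 ≤ (∑ n ∈ Finset.Icc 1 ⌊β⌋₊, |a n|) ^ 2 := by
    rw [← sq_abs (S a u)]
    exact pow_le_pow_left₀ (abs_nonneg _) (abs_S_le a hu.2) 2
  have h2 : α ^ 2 ≤ u ^ 2 := pow_le_pow_left₀ hα.le hu.1.le 2
  exact div_le_div₀ (sq_nonneg _) h1 (by positivity) h2

theorem integrable_div (a : ArithmeticFunction ℝ) (d : ℕ) {α β : ℝ} (hα : 0 < α)
    (hαβ : α ≤ β) : IntervalIntegrable (fun u => (S a (u / d) / u) ^ 2) volume α β := by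
  apply intervalIntegrable_of_bounded
    ((((measurable_S a).comp (measurable_id.div_const (d : ℝ))).div measurable_id).pow_const 2) α β
    ((∑ n ∈ Finset.Icc 1 ⌊β⌋₊, |a n|) ^ 2 / α ^ 2)
  intro u hu
  rw [Set.uIoc_of_le hαβ] at hu
  have hu0 : 0 < u := lt_trans hα hu.1
  change |(S a (u / d) / u) ^ 2| ≤ _
  rw [abs_of_nonneg (sq_nonneg _), div_pow]
  have h0 : u / d ≤ β := by
    rcases Nat.eq_zero_or_pos d with rfl | hd
    · simp
      linarith
    · have : (1 : ℝ) ≤ d := by exact_mod_cast hd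
      exact (div_le_self hu0.le this).trans hu.2
  have h1 : (S a (u / d)) ^ 2 ≤ (∑ n ∈ Finset.Icc 1 ⌊β⌋₊, |a n|) ^ 2 := by
    rw [← sq_abs (S a (u / d))]
    exact pow_le_pow_left₀ (abs_nonneg _) (abs_S_le a h0) 2
  have h2 : α ^ 2 ≤ u ^ 2 := pow_le_pow_left₀ hα.le hu.1.le 2
  exact div_le_div₀ (sq_nonneg _) h1 (by positivity) h2

theorem msq_nonneg (a : ArithmeticFunction ℝ) {x : ℝ} (hx : 1 ≤ x) : 0 ≤ msq a x :=
  intervalIntegral.integral_nonneg hx fun _ _ => sq_nonneg _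

theorem dilate (a : ArithmeticFunction ℝ) (d : ℕ) (hd : 1 ≤ d) {x : ℝ} (hx : 1 ≤ x) :
    ∫ u in (1 : ℝ)..x, (S a (u / d) / u) ^ 2 ≤ (1 / (d : ℝ)) * msq a x := by
  have hd1 : (1 : ℝ) ≤ d := by exact_mod_cast hd
  have hd0 : (0 : ℝ) < d := by linarith
  have h1 : ∫ u in (1 : ℝ)..x, (S a (u / d) / u) ^ 2 =
      (1 / (d : ℝ)) * ∫ t in (1 / (d : ℝ))..(x / d), (S a t / t) ^ 2 := by
    have h2 := intervalIntegral.integral_comp_div (a := 1) (b := x)
      (fun t => (S a t / t) ^ 2 / (d : ℝ) ^ 2) hd0.ne'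
    have h3 : ∀ u : ℝ, (S a (u / d) / (u / d)) ^ 2 / (d : ℝ) ^ 2 = (S a (u / d) / u) ^ 2 := by
      intro u
      rcases eq_or_ne u 0 with rfl | hu
      · simp
      · field_simp
    simp only [h3] at h2
    rw [h2, intervalIntegral.integral_div, smul_eq_mul]
    field_simp
  have hle : 1 / (d : ℝ) ≤ 1 := by
    rw [div_le_one hd0]
    exact hd1
  have hpos : 0 < 1 / (d : ℝ) := by positivity
  have h4 : ∫ t in (1 / (d : ℝ))..(x / d), (S a t / t) ^ 2 ≤ msq a x := by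
    have h5 : 1 / (d : ℝ) ≤ x / d := div_le_div_of_nonneg_right hx hd0.le
    have h6 : x / d ≤ x := div_le_self (by linarith) hd1
    calc ∫ t in (1 / (d : ℝ))..(x / d), (S a t / t) ^ 2 ≤
          ∫ t in (1 / (d : ℝ))..x, (S a t / t) ^ 2 := by
          apply intervalIntegral.integral_mono_interval le_rfl h5 h6
          · exact Filter.Eventually.of_forall fun t => sq_nonneg _
          · exact integrable_sq a hpos (h5.trans h6)
      _ = (∫ t in (1 / (d : ℝ))..1, (S a t / t) ^ 2) + msq a x :=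
          (intervalIntegral.integral_add_adjacent_intervals
            (integrable_sq a hpos hle) (integrable_sq a zero_lt_one hx)).symm
      _ = msq a x := by
          have h7 : ∫ t in (1 / (d : ℝ))..1, (S a t / t) ^ 2 = 0 := by
            rw [intervalIntegral.integral_of_le hle, ← integral_Ico_eq_integral_Ioc]
            rw [setIntegral_congr_fun (g := fun _ => (0 : ℝ)) measurableSet_Ico]
            · simp
            · intro t ht
              simp only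
              rw [S_of_lt_one a ht.2]
              simp
          rw [h7, zero_add]
  rw [h1]
  exact mul_le_mul_of_nonneg_left h4 hpos.le

/-- **Dirichlet convolution with `g` multiplies the mean square by at most `‖g‖²`.** -/
theorem msq_mul_le (g a : ArithmeticFunction ℝ) (hg : Wiener g) {x : ℝ} (hx : 1 ≤ x) :
    msq (g * a) x ≤ wnorm g ^ 2 * msq a x := by
  set X : ℕ := ⌊x⌋₊ with hX
  set A : ℝ := wnorm g with hA
  have hterm0 : ∀ d : ℕ, 0 ≤ |g d| * (d : ℝ) ^ (-(1 / 2 : ℝ)) := fun d => by positivity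
  have hA0 : 0 ≤ A := tsum_nonneg hterm0
  have hfin : ∀ s : Finset ℕ, ∑ d ∈ s, |g d| * (d : ℝ) ^ (-(1 / 2 : ℝ)) ≤ A := fun s =>
    hg.sum_le_tsum s fun d _ => hterm0 d
  -- the pointwise inequality
  have hpt : ∀ u ∈ Set.Icc (1 : ℝ) x, (S (g * a) u / u) ^ 2 ≤
      ∑ d ∈ Finset.Icc 1 X, (A * (|g d| * (d : ℝ) ^ (1 / 2 : ℝ))) * (S a (u / d) / u) ^ 2 := by
    intro u hu
    have hu0 : 0 < u := by linarith [hu.1]
    rw [S_mul]
    have hUX : Finset.Icc 1 ⌊u⌋₊ ⊆ Finset.Icc 1 X :=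
      Finset.Icc_subset_Icc le_rfl (Nat.floor_le_floor hu.2)
    have h1 : (∑ d ∈ Finset.Icc 1 ⌊u⌋₊, g d * S a (u / d)) ^ 2 ≤
        A * ∑ d ∈ Finset.Icc 1 X, |g d| * (d : ℝ) ^ (1 / 2 : ℝ) * (S a (u / d)) ^ 2 := by
      have h2 : (∑ d ∈ Finset.Icc 1 ⌊u⌋₊, g d * S a (u / d)) ^ 2 ≤
          (∑ d ∈ Finset.Icc 1 ⌊u⌋₊, |g d| * |S a (u / d)|) ^ 2 := by
        rw [← sq_abs (∑ d ∈ Finset.Icc 1 ⌊u⌋₊, g d * S a (u / d))]
        apply pow_le_pow_left₀ (abs_nonneg _)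
        refine (Finset.abs_sum_le_sum_abs _ _).trans (le_of_eq ?_)
        exact Finset.sum_congr rfl fun d _ => abs_mul _ _
      have h3 : (∑ d ∈ Finset.Icc 1 ⌊u⌋₊, |g d| * |S a (u / d)|) ^ 2 ≤
          (∑ d ∈ Finset.Icc 1 ⌊u⌋₊, |g d| * (d : ℝ) ^ (-(1 / 2 : ℝ))) *
          ∑ d ∈ Finset.Icc 1 ⌊u⌋₊, |g d| * (d : ℝ) ^ (1 / 2 : ℝ) * (S a (u / d)) ^ 2 := by
        apply Finset.sum_sq_le_sum_mul_sum_of_sq_eq_mul
        · intro d _
          exact hterm0 d
        · intro d _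
          positivity
        · intro d hd
          rw [Finset.mem_Icc] at hd
          have hd0 : (0 : ℝ) < d := by exact_mod_cast hd.1
          have h4 : (d : ℝ) ^ (-(1 / 2 : ℝ)) * (d : ℝ) ^ (1 / 2 : ℝ) = 1 := by
            rw [← Real.rpow_add hd0]
            simp
          calc (|g d| * |S a (u / d)|) ^ 2 = |g d| ^ 2 * |S a (u / d)| ^ 2 * 1 := by ring
            _ = |g d| ^ 2 * (S a (u / d)) ^ 2 *
                ((d : ℝ) ^ (-(1 / 2 : ℝ)) * (d : ℝ) ^ (1 / 2 : ℝ)) := by rw [h4, sq_abs (S a (u / d))]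
            _ = _ := by ring
      refine h2.trans (h3.trans ?_)
      apply mul_le_mul (hfin _) _ _ hA0
      · exact Finset.sum_le_sum_of_subset_of_nonneg hUX fun d _ _ => by positivity
      · exact Finset.sum_nonneg fun d _ => by positivity
    rw [div_pow, div_le_iff₀ (by positivity)]
    refine h1.trans (le_of_eq ?_)
    rw [Finset.mul_sum, Finset.sum_mul]
    apply Finset.sum_congr rfl
    intro d _
    rw [div_pow]
    field_simp
  have hint : ∀ d ∈ Finset.Icc 1 X, IntervalIntegrable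
      (fun u => (A * (|g d| * (d : ℝ) ^ (1 / 2 : ℝ))) * (S a (u / d) / u) ^ 2) volume 1 x :=
    fun d _ => (integrable_div a d zero_lt_one hx).const_mul _
  calc msq (g * a) x ≤ ∫ u in (1 : ℝ)..x,
      ∑ d ∈ Finset.Icc 1 X, (A * (|g d| * (d : ℝ) ^ (1 / 2 : ℝ))) * (S a (u / d) / u) ^ 2 := by
        apply intervalIntegral.integral_mono_on hx (integrable_sq _ zero_lt_one hx) _ hpt
        have h8 := IntervalIntegrable.sum _ hint
        rw [Finset.sum_fn] at h8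
        exact h8
    _ = ∑ d ∈ Finset.Icc 1 X, ∫ u in (1 : ℝ)..x,
        (A * (|g d| * (d : ℝ) ^ (1 / 2 : ℝ))) * (S a (u / d) / u) ^ 2 :=
        intervalIntegral.integral_finsetSum hint
    _ ≤ ∑ d ∈ Finset.Icc 1 X, A * (|g d| * (d : ℝ) ^ (-(1 / 2 : ℝ))) * msq a x := by
        apply Finset.sum_le_sum
        intro d hd
        rw [Finset.mem_Icc] at hd
        have hd0 : (0 : ℝ) < d := by exact_mod_cast hd.1
        rw [intervalIntegral.integral_const_mul]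
        have h5 := dilate a d hd.1 hx
        have h6 : 0 ≤ A * (|g d| * (d : ℝ) ^ (1 / 2 : ℝ)) := by positivity
        calc A * (|g d| * (d : ℝ) ^ (1 / 2 : ℝ)) * ∫ u in (1 : ℝ)..x, (S a (u / d) / u) ^ 2 ≤
              A * (|g d| * (d : ℝ) ^ (1 / 2 : ℝ)) * ((1 / (d : ℝ)) * msq a x) :=
              mul_le_mul_of_nonneg_left h5 h6
          _ = _ := by
              have h7 : (d : ℝ) ^ (1 / 2 : ℝ) * (1 / (d : ℝ)) = (d : ℝ) ^ (-(1 / 2 : ℝ)) := by
                have e := Real.rpow_sub hd0 (1 / 2) 1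
                rw [Real.rpow_one] at e
                rw [mul_one_div, ← e]
                norm_num
              rw [← h7]
              ring
    _ = (∑ d ∈ Finset.Icc 1 X, |g d| * (d : ℝ) ^ (-(1 / 2 : ℝ))) * (A * msq a x) := by
        rw [Finset.sum_mul]
        apply Finset.sum_congr rfl
        intro d _
        ring
    _ ≤ A * (A * msq a x) := mul_le_mul_of_nonneg_right (hfin _)
        (mul_nonneg hA0 (msq_nonneg a hx))
    _ = A ^ 2 * msq a x := by ring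

end Pool.Agent.X159.WM
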